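import Mathlib

/-!
# Graphs on 20 vertices whose complement is pseudo 16-regular: basic facts

`N v` is the set of the non-neighbours of `v`, `g v = |N v| - 2`.
-/

set_option autoImplicit false

namespace Pool.Agent.Q147.PK

open Finset

structure Cfg (V : Type) [Fintype V] [DecidableEq V] where
  N : V → Finset V
  g : V → ℤ
  S : ℤ
  symm : ∀ v w, w ∈ N v → v ∈ N w
  irr : ∀ v, v ∉ N v
  card : ∀ v, ((N v).card : ℤ) = g v + 2
  sum : ∀ v, ∑ w ∈ N v, g w = S
  tot : ∑ v, g v = S + 17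
  cV : Fintype.card V = 20
  le : ∀ v, g v ≤ 16
  ne : ∃ v, g v ≠ 1

namespace Cfg

variable {V : Type} [Fintype V] [DecidableEq V] (c : Cfg V)

theorem comm (v w : V) : w ∈ c.N v ↔ v ∈ c.N w := ⟨c.symm v w, c.symm w v⟩

/-- double counting -/
theorem dc (A C : Finset V) (F : V → ℤ) :
    ∑ v ∈ C, F v * ((A ∩ c.N v).card : ℤ) = ∑ w ∈ A, ∑ v ∈ C ∩ c.N w, F v := by
  have h1 : ∀ v ∈ C, F v * ((A ∩ c.N v).card : ℤ) = ∑ w ∈ A, if v ∈ c.N w then F v else 0 := by
    intro v _
    have h0 : A ∩ c.N v = A.filter (fun w => v ∈ c.N w) := by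
      ext w
      rw [mem_inter, mem_filter, c.comm v w]
    rw [← Finset.sum_filter, Finset.sum_const, nsmul_eq_mul, mul_comm, h0]
  rw [Finset.sum_congr rfl h1, Finset.sum_comm]
  refine Finset.sum_congr rfl fun w _ => ?_
  rw [← Finset.sum_filter, Finset.filter_mem_eq_inter]

theorem sumsq : ∑ v, c.g v ^ 2 = 18 * c.S - 34 := by
  have h1 := c.dc univ univ c.g
  simp only [Finset.univ_inter, c.sum, c.card] at h1
  rw [Finset.sum_const, Finset.card_univ, c.cV] at h1
  have h2 : ∑ v, c.g v * (c.g v + 2) = ∑ v, c.g v ^ 2 + 2 * ∑ v, c.g v := by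
    rw [Finset.mul_sum, ← Finset.sum_add_distrib]
    refine Finset.sum_congr rfl fun v _ => ?_
    ring
  rw [h2, c.tot] at h1
  simp only [nsmul_eq_mul] at h1
  push_cast at h1
  linarith

theorem S_odd : ∃ k : ℤ, c.S = 2 * k + 1 := by
  have h1 : (2 : ℤ) ∣ ∑ v, (c.g v ^ 2 - c.g v) := by
    refine Finset.dvd_sum fun v _ => ?_
    have := Int.even_mul_pred_self (c.g v)
    have h2 : c.g v ^ 2 - c.g v = c.g v * (c.g v - 1) := by ring
    rw [h2]
    exact this.two_dvd
  rw [Finset.sum_sub_distrib, c.sumsq, c.tot] at h1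
  exact ⟨c.S / 2, by omega⟩

theorem S_ge : 5 ≤ c.S := by
  have h1 : 0 < ∑ v, (c.g v - 1) ^ 2 := by
    obtain ⟨v, hv⟩ := c.ne
    refine Finset.sum_pos' (fun w _ => sq_nonneg _) ⟨v, mem_univ _, ?_⟩
    have : c.g v - 1 ≠ 0 := by omega
    positivity
  have h2 : ∑ v, (c.g v - 1) ^ 2 = ∑ v, c.g v ^ 2 - 2 * ∑ v, c.g v + 20 := by
    rw [Finset.mul_sum, ← Finset.sum_sub_distrib]
    have : (20 : ℤ) = ∑ _v : V, (1 : ℤ) := by
      rw [Finset.sum_const, Finset.card_univ, c.cV]
      norm_num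
    rw [this, ← Finset.sum_add_distrib]
    refine Finset.sum_congr rfl fun v _ => ?_
    ring
  rw [h2, c.sumsq, c.tot] at h1
  obtain ⟨k, hk⟩ := c.S_odd
  omega

theorem g_ge (v : V) : -1 ≤ c.g v := by
  have h1 := c.card v
  by_contra h
  have h2 : (c.N v).card = 0 := by omega
  rw [Finset.card_eq_zero] at h2
  have h3 := c.sum v
  rw [h2, Finset.sum_empty] at h3
  have := c.S_ge
  omega

theorem neg {v w : V} (hw : c.g w = -1) (hv : v ∈ c.N w) : c.g v = c.S := by
  have h1 := c.card w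
  have h2 : (c.N w).card = 1 := by omega
  obtain ⟨u, hu⟩ := Finset.card_eq_one.1 h2
  rw [hu, mem_singleton] at hv
  have h3 := c.sum w
  rw [hu, Finset.sum_singleton] at h3
  rw [hv, h3]

theorem exists_nbr (v : V) : ∃ w, w ∈ c.N v := by
  have h1 := c.card v
  have h2 := c.g_ge v
  have h3 : 0 < (c.N v).card := by omega
  exact Finset.card_pos.1 h3

/-- the neighbours of a vertex with `g ≠ S` have `g ≥ 0` -/
theorem nbr_nonneg {v : V} (hv : c.g v ≠ c.S) {w : V} (hw : w ∈ c.N v) : 0 ≤ c.g w := by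
  have h1 := c.g_ge w
  by_contra h
  exact hv (c.neg (by omega) (c.symm v w hw))

theorem g_le (v : V) : c.g v ≤ c.S := by
  by_contra h
  push Not at h
  have hS := c.S_ge
  -- all neighbours have `g = S`
  have h1 : ∀ w ∈ c.N v, c.g w = c.S := by
    intro w hw
    by_contra hne
    have h2 : c.g v ≤ ∑ u ∈ c.N w, c.g u :=
      Finset.single_le_sum (fun u hu => c.nbr_nonneg hne hu) (c.symm v w hw)
    rw [c.sum] at h2
    omega
  have h2 := c.sum v
  rw [Finset.sum_congr rfl h1, Finset.sum_const, nsmul_eq_mul, c.card] at h2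
  nlinarith

theorem sum_out (v : V) : ∑ w ∈ univ \ insert v (c.N v), (c.g w - 1) = 0 := by
  have h1 : ∑ w ∈ univ \ insert v (c.N v), (c.g w - 1) + ∑ w ∈ insert v (c.N v), (c.g w - 1) =
      ∑ w, (c.g w - 1) := Finset.sum_sdiff (Finset.subset_univ _)
  rw [Finset.sum_insert (c.irr v), Finset.sum_sub_distrib, Finset.sum_sub_distrib, c.sum,
    Finset.sum_sub_distrib (s := univ), c.tot] at h1
  simp only [Finset.sum_const, Finset.card_univ, c.cV, nsmul_eq_mul, mul_one] at h1
  rw [Finset.sum_sub_distrib]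
  simp only [Finset.sum_const, nsmul_eq_mul, mul_one]
  have := c.card v
  push_cast at h1
  linarith

/-- some vertex has `g ≤ 0` -/
theorem exists_zero : ∃ v, c.g v ≤ 0 := by
  by_contra hcon
  push Not at hcon
  have hS := c.S_ge
  obtain ⟨v, hv⟩ : ∃ v, 1 < c.g v := by
    by_contra h
    push Not at h
    obtain ⟨v, hv⟩ := c.ne
    have := hcon v
    have := h v
    omega
  have h1 : ∀ w, w ≠ v → w ∈ c.N v := by
    intro w hw
    by_contra hwv
    have h2 := c.sum_out w
    rw [Finset.sum_eq_zero_iff_of_nonneg (fun u _ => by have := hcon u; omega)] at h2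
    have h3 := h2 v (by
      rw [mem_sdiff, mem_insert, not_or]
      refine ⟨mem_univ _, hw.symm, ?_⟩
      rw [c.comm w v]
      exact hwv)
    omega
  have h2 : univ.erase v ⊆ c.N v := fun w hw => h1 w (ne_of_mem_erase hw)
  have h3 := Finset.card_le_card h2
  rw [Finset.card_erase_of_mem (mem_univ _), Finset.card_univ, c.cV] at h3
  have h4 := c.card v
  have h5 := c.le v
  omega

/-- splitting of sums along a set to which every vertex has at most one neighbour -/
theorem split (A : Finset V) (hA : ∀ v, (A ∩ c.N v).card ≤ 1) (F : V → ℤ) :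
    ∑ v, F v = ∑ w ∈ A, ∑ v ∈ c.N w, F v + ∑ v ∈ univ.filter (fun v => A ∩ c.N v = ∅), F v := by
  have h1 := c.dc A univ F
  simp only [Finset.univ_inter] at h1
  rw [← h1, Finset.sum_filter, ← Finset.sum_add_distrib]
  refine Finset.sum_congr rfl fun v _ => ?_
  have h2 := hA v
  by_cases h : A ∩ c.N v = ∅
  · rw [if_pos h, h]; simp
  · rw [if_neg h]
    have h3 : (A ∩ c.N v).card ≠ 0 := fun h0 => h (Finset.card_eq_zero.1 h0)
    have h4 : (A ∩ c.N v).card = 1 := by omega
    rw [h4]; simp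

/-- the two neighbours of a vertex with `g = 0` -/
theorem zero_nbrs {z : V} (hz : c.g z = 0) : ∃ a b, a ≠ b ∧ c.N z = {a, b} ∧
    c.g a + c.g b = c.S := by
  have h1 := c.card z
  have h2 : (c.N z).card = 2 := by omega
  obtain ⟨a, b, hab, h⟩ := Finset.card_eq_two.1 h2
  refine ⟨a, b, hab, h, ?_⟩
  have h3 := c.sum z
  rwa [h, Finset.sum_pair hab] at h3

/-- the other neighbour of a vertex with `g = 0` -/
theorem zero_other {z a : V} (hz : c.g z = 0) (ha : a ∈ c.N z) : ∃ b, a ≠ b ∧ c.N z = {a, b} ∧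
    c.g b = c.S - c.g a := by
  obtain ⟨x, y, hxy, h, hs⟩ := c.zero_nbrs hz
  rw [h, mem_insert, mem_singleton] at ha
  rcases ha with rfl | rfl
  · exact ⟨y, hxy, h, by omega⟩
  · refine ⟨x, hxy.symm, ?_, by omega⟩
    rw [h, Finset.pair_comm]

end Cfg

end Pool.Agent.Q147.PK
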