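import Pool.Agent.Q147.PK.Base

/-!
# The case in which no vertex has `g = S`
-/

set_option autoImplicit false

namespace Pool.Agent.Q147.PK

open Finset

namespace Cfg

variable {V : Type} [Fintype V] [DecidableEq V] (c : Cfg V)

/-- the vertices with `2 g > S` -/
def L : Finset V := univ.filter (fun v => c.S < 2 * c.g v)

/-- the vertices without a neighbour in `L` -/
def O : Finset V := univ.filter (fun v => c.L ∩ c.N v = ∅)

theorem mem_L {v : V} : v ∈ c.L ↔ c.S < 2 * c.g v := by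
  rw [L, mem_filter]
  exact ⟨fun h => h.2, fun h => ⟨mem_univ _, h⟩⟩

theorem not_L {v : V} (h : v ∉ c.L) : 2 * c.g v + 1 ≤ c.S := by
  rw [mem_L] at h
  obtain ⟨k, hk⟩ := c.S_odd
  omega

theorem mem_O {v : V} : v ∈ c.O ↔ ∀ w ∈ c.N v, w ∉ c.L := by
  rw [O, mem_filter, Finset.eq_empty_iff_forall_notMem]
  constructor
  · intro h w hw hL
    exact h.2 w (mem_inter.2 ⟨hL, hw⟩)
  · intro h
    refine ⟨mem_univ _, fun w hw => ?_⟩
    rw [mem_inter] at hw
    exact h w hw.2 hw.1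

theorem not_O {v : V} (h : v ∉ c.O) : ∃ w, w ∈ c.L ∧ w ∈ c.N v := by
  rw [mem_O] at h
  push Not at h
  obtain ⟨w, h1, h2⟩ := h
  exact ⟨w, h2, h1⟩

section A

variable (hU : ∀ v, c.g v ≠ c.S)
include hU

theorem nn (v : V) : 0 ≤ c.g v := by
  by_contra h
  have h1 := c.g_ge v
  obtain ⟨w, hw⟩ := c.exists_nbr v
  exact hU w (c.neg (by omega) hw)

theorem glt (v : V) : c.g v < c.S := lt_of_le_of_ne (c.g_le v) (hU v)

theorem L1 (v : V) : (c.L ∩ c.N v).card ≤ 1 := by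
  rw [Finset.card_le_one]
  intro a ha b hb
  by_contra hab
  rw [mem_inter, mem_L] at ha hb
  have h1 : ∑ w ∈ ({a, b} : Finset V), c.g w ≤ ∑ w ∈ c.N v, c.g w := by
    refine Finset.sum_le_sum_of_subset_of_nonneg ?_ (fun w _ _ => c.nn hU w)
    intro w hw
    rw [mem_insert, mem_singleton] at hw
    rcases hw with rfl | rfl
    · exact ha.2
    · exact hb.2
  rw [Finset.sum_pair hab, c.sum] at h1
  omega

theorem posO {v : V} (hv : v ∈ c.O) : 1 ≤ c.g v := by
  by_contra h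
  have h0 := c.nn hU v
  obtain ⟨a, b, hab, h1, h2⟩ := c.zero_nbrs (z := v) (by omega)
  rw [mem_O] at hv
  have h3 := c.not_L (hv a (by rw [h1]; simp))
  have h4 := c.not_L (hv b (by rw [h1]; simp))
  omega

theorem cardO : (c.O.card : ℤ) = 20 - ∑ w ∈ c.L, (c.g w + 2) := by
  have h := c.split c.L (c.L1 hU) (fun _ => 1)
  simp only [Finset.sum_const, Finset.card_univ, c.cV, nsmul_eq_mul, mul_one, c.card] at h
  rw [O]
  push_cast at h
  linarith

theorem sumO : ∑ v ∈ c.O, c.g v = c.S + 17 - c.L.card * c.S := by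
  have h := c.split c.L (c.L1 hU) c.g
  rw [c.tot, Finset.sum_congr rfl (fun w _ => c.sum w), Finset.sum_const, nsmul_eq_mul] at h
  rw [O]
  linarith

theorem sumF (F : V → ℤ) : ∑ v, F v = ∑ w ∈ c.L, ∑ v ∈ c.N w, F v + ∑ v ∈ c.O, F v :=
  c.split c.L (c.L1 hU) F

theorem exz : ∃ z, c.g z = 0 := by
  obtain ⟨z, hz⟩ := c.exists_zero
  exact ⟨z, le_antisymm hz (c.nn hU z)⟩

/-- at least one large vertex -/
theorem L_pos : 0 < c.L.card := by
  obtain ⟨z, hz⟩ := c.exz hU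
  have h1 : z ∉ c.O := fun h => by
    have := c.posO hU h
    omega
  obtain ⟨w, hw, _⟩ := c.not_O h1
  exact Finset.card_pos.2 ⟨w, hw⟩

/-- at most three large vertices -/
theorem L_le : c.L.card ≤ 3 := by
  by_contra hcon
  push Not at hcon
  have hS := c.S_ge
  have h1 := c.cardO hU
  have h2 := c.sumO hU
  have h3 : ∑ v ∈ c.O, (1 : ℤ) ≤ ∑ v ∈ c.O, c.g v := Finset.sum_le_sum fun v hv => c.posO hU hv
  rw [Finset.sum_const, nsmul_eq_mul, mul_one] at h3
  have h4 : ∑ w ∈ c.L, (c.S + 1) ≤ ∑ w ∈ c.L, 2 * c.g w := by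
    refine Finset.sum_le_sum fun v hv => ?_
    rw [mem_L] at hv
    omega
  rw [Finset.sum_const, nsmul_eq_mul, ← Finset.mul_sum] at h4
  rw [Finset.sum_add_distrib, Finset.sum_const, nsmul_eq_mul] at h1
  have h5 : (0 : ℤ) ≤ c.O.card := Int.natCast_nonneg _
  have h6 : (4 : ℤ) ≤ c.L.card := by exact_mod_cast hcon
  set ℓ : ℤ := (c.L.card : ℤ)
  have h7 : ℓ ≤ 4 := by nlinarith
  have h8 : ℓ = 4 := by omega
  rw [h8] at h1 h2 h4
  have h9 : c.S = 5 := by omega
  rw [h9] at h2 h4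
  have h10 : (c.O.card : ℤ) = 0 := by omega
  have h11 : c.O = ∅ := Finset.card_eq_zero.1 (by exact_mod_cast h10)
  rw [h11, Finset.sum_empty] at h2
  omega

end A

end Cfg

end Pool.Agent.Q147.PK
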