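import Pool.Agent.Q147.PK.Base

/-!
# The case in which some vertex has `g = S`
-/

set_option autoImplicit false

namespace Pool.Agent.Q147.PK

open Finset

namespace Cfg

variable {V : Type} [Fintype V] [DecidableEq V] (c : Cfg V)

/-- the vertices with `g = S` -/
def U : Finset V := univ.filter (fun v => c.g v = c.S)

/-- the vertices which are neither in `U` nor adjacent to `U` -/
def P : Finset V := univ.filter (fun v => c.g v ≠ c.S ∧ ∀ w ∈ c.N v, c.g w ≠ c.S)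

/-- the zeros of `P` -/
def Z : Finset V := c.P.filter (fun v => c.g v = 0)

/-- the nonzero vertices of `P` -/
def H : Finset V := c.P.filter (fun v => 1 ≤ c.g v)

/-- the positive neighbours of `u` -/
def R (u : V) : Finset V := (c.N u).filter (fun v => 1 ≤ c.g v)

theorem mem_U {v : V} : v ∈ c.U ↔ c.g v = c.S := by
  rw [U, mem_filter]
  exact ⟨fun h => h.2, fun h => ⟨mem_univ _, h⟩⟩

theorem mem_P {v : V} : v ∈ c.P ↔ c.g v ≠ c.S ∧ ∀ w ∈ c.N v, c.g w ≠ c.S := by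
  rw [P, mem_filter]
  exact ⟨fun h => h.2, fun h => ⟨mem_univ _, h⟩⟩

theorem mem_R {u v : V} : v ∈ c.R u ↔ v ∈ c.N u ∧ 1 ≤ c.g v := by
  rw [R, mem_filter]

theorem mem_Z {v : V} : v ∈ c.Z ↔ v ∈ c.P ∧ c.g v = 0 := by
  rw [Z, mem_filter]

theorem mem_H {v : V} : v ∈ c.H ↔ v ∈ c.P ∧ 1 ≤ c.g v := by
  rw [H, mem_filter]

/-- a vertex outside `U` with a neighbour in `U` has only zeros as other neighbours -/
theorem far {v u w : V} (hv : c.g v ≠ c.S) (hu : c.g u = c.S) (huv : u ∈ c.N v)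
    (hw : w ∈ c.N v) (hwu : w ≠ u) : c.g w = 0 := by
  have h1 := Finset.add_sum_erase (c.N v) c.g huv
  rw [c.sum, hu] at h1
  have h2 : ∑ w ∈ (c.N v).erase u, c.g w = 0 := by linarith
  rw [Finset.sum_eq_zero_iff_of_nonneg
    (fun w hw => c.nbr_nonneg hv (mem_of_mem_erase hw))] at h2
  exact h2 w (mem_erase.2 ⟨hwu, hw⟩)

theorem U1 {v : V} (hv : c.g v ≠ c.S) : (c.U ∩ c.N v).card ≤ 1 := by
  rw [Finset.card_le_one]
  intro a ha b hb
  by_contra hab
  rw [mem_inter, mem_U] at ha hb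
  have h1 := c.far hv ha.1 ha.2 hb.2 (Ne.symm hab)
  have := c.S_ge
  omega

theorem splitU (F : V → ℤ) : ∑ v, F v = ∑ v ∈ c.U, F v +
    (∑ w ∈ c.U, ∑ v ∈ (univ \ c.U) ∩ c.N w, F v + ∑ v ∈ c.P, F v) := by
  have h1 := c.dc c.U (univ \ c.U) F
  have h2 := Finset.sum_sdiff (f := F) (Finset.subset_univ c.U)
  have h3 : ∑ v ∈ c.P, F v = ∑ v ∈ univ \ c.U, if v ∈ c.P then F v else 0 := by
    rw [← Finset.sum_filter]
    refine Finset.sum_congr ?_ fun _ _ => rfl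
    ext v
    rw [mem_filter, mem_sdiff, mem_U, mem_P]
    constructor
    · intro h
      exact ⟨⟨mem_univ _, h.1⟩, h⟩
    · intro h
      exact h.2
  rw [← h1, h3, ← Finset.sum_add_distrib, ← h2, add_comm]
  congr 1
  refine Finset.sum_congr rfl fun v hv => ?_
  rw [mem_sdiff, mem_U] at hv
  have h4 := c.U1 hv.2
  by_cases h : v ∈ c.P
  · rw [if_pos h]
    have h5 : c.U ∩ c.N v = ∅ := by
      rw [Finset.eq_empty_iff_forall_notMem]
      intro w hw
      rw [mem_inter, mem_U] at hw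
      exact (c.mem_P.1 h).2 w hw.2 hw.1
    rw [h5]
    simp
  · rw [if_neg h]
    have h5 : (c.U ∩ c.N v).card ≠ 0 := by
      intro h0
      rw [Finset.card_eq_zero] at h0
      refine h (c.mem_P.2 ⟨hv.2, fun w hw hwS => ?_⟩)
      have : w ∈ c.U ∩ c.N v := mem_inter.2 ⟨c.mem_U.2 hwS, hw⟩
      rw [h0] at this
      exact absurd this (Finset.notMem_empty w)
    have h6 : (c.U ∩ c.N v).card = 1 := by omega
    rw [h6]
    simp

theorem nbr_split {w : V} (hw : c.g w = c.S) :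
    ((((univ \ c.U) ∩ c.N w).card : ℤ) = c.S + 2 - (c.U ∩ c.N w).card) ∧
    ∑ v ∈ (univ \ c.U) ∩ c.N w, c.g v = c.S - c.S * (c.U ∩ c.N w).card := by
  have h0 : (univ \ c.U) ∩ c.N w = c.N w \ (c.U ∩ c.N w) := by
    ext v
    simp only [mem_inter, mem_sdiff, mem_univ, true_and]
    tauto
  have hs : c.U ∩ c.N w ⊆ c.N w := Finset.inter_subset_right
  rw [h0]
  constructor
  · have h1 := Finset.card_sdiff_add_card_eq_card hs
    have h2 := c.card w
    omega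
  · have h1 := Finset.sum_sdiff (f := c.g) hs
    have h2 : ∑ v ∈ c.U ∩ c.N w, c.g v = ∑ v ∈ c.U ∩ c.N w, c.S :=
      Finset.sum_congr rfl fun v hv => c.mem_U.1 (mem_inter.1 hv).1
    rw [h2, Finset.sum_const, nsmul_eq_mul, c.sum] at h1
    linarith

theorem t_le {w : V} (hw : c.g w = c.S) : (c.U ∩ c.N w).card ≤ 2 := by
  have hS := c.S_ge
  obtain ⟨h1, h2⟩ := c.nbr_split hw
  have h3 : 0 ≤ ∑ v ∈ (univ \ c.U) ∩ c.N w, (c.g v + 1) :=
    Finset.sum_nonneg fun v _ => by have := c.g_ge v; omega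
  rw [Finset.sum_add_distrib, Finset.sum_const, nsmul_eq_mul, mul_one, h1, h2] at h3
  by_contra hcon
  push Not at hcon
  have h4 : (3 : ℤ) ≤ (c.U ∩ c.N w).card := by exact_mod_cast hcon
  nlinarith

theorem P_bds {v : V} (hv : v ∈ c.P) : 0 ≤ c.g v ∧ c.g v + 1 ≤ c.S := by
  rw [mem_P] at hv
  have h1 := c.g_le v
  have h2 := c.g_ge v
  have h3 : c.g v ≠ -1 := by
    intro h
    obtain ⟨w, hw⟩ := c.exists_nbr v
    exact hv.2 w hw (c.neg h hw)
  have := hv.1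
  omega

theorem P_card : (c.P.card : ℤ) = 20 - c.U.card - ∑ w ∈ c.U, (c.S + 2 - (c.U ∩ c.N w).card) := by
  have h := c.splitU (fun _ => 1)
  have h1 : ∑ w ∈ c.U, ∑ v ∈ (univ \ c.U) ∩ c.N w, (1 : ℤ) =
      ∑ w ∈ c.U, (c.S + 2 - (c.U ∩ c.N w).card) := by
    refine Finset.sum_congr rfl fun w hw => ?_
    rw [Finset.sum_const, nsmul_eq_mul, mul_one]
    exact (c.nbr_split (c.mem_U.1 hw)).1
  rw [h1] at h
  simp only [Finset.sum_const, Finset.card_univ, c.cV, nsmul_eq_mul, mul_one] at h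
  push_cast at h
  linarith

theorem P_sum : ∑ v ∈ c.P, c.g v = c.S + 17 - c.U.card * c.S -
    ∑ w ∈ c.U, (c.S - c.S * (c.U ∩ c.N w).card) := by
  have h := c.splitU c.g
  have h1 : ∑ w ∈ c.U, ∑ v ∈ (univ \ c.U) ∩ c.N w, c.g v =
      ∑ w ∈ c.U, (c.S - c.S * (c.U ∩ c.N w).card) := by
    refine Finset.sum_congr rfl fun w hw => ?_
    exact (c.nbr_split (c.mem_U.1 hw)).2
  have h2 : ∑ v ∈ c.U, c.g v = ∑ v ∈ c.U, c.S :=
    Finset.sum_congr rfl fun v hv => c.mem_U.1 hv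
  rw [h1, h2, c.tot, Finset.sum_const, nsmul_eq_mul] at h
  linarith

theorem U_le : c.U.card ≤ 2 := by
  by_contra hcon
  push Not at hcon
  have hS := c.S_ge
  have h1 := c.P_card
  have h2 := c.P_sum
  have h3 : ∑ v ∈ c.P, c.g v ≤ ∑ v ∈ c.P, (c.S - 1) :=
    Finset.sum_le_sum fun v hv => by have := c.P_bds hv; omega
  have h4 : ∑ w ∈ c.U, ((c.U ∩ c.N w).card : ℤ) ≤ ∑ w ∈ c.U, (2 : ℤ) := by
    refine Finset.sum_le_sum fun w hw => ?_
    have := c.t_le (c.mem_U.1 hw)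
    exact_mod_cast this
  have h5 : 0 ≤ ∑ w ∈ c.U, ((c.U ∩ c.N w).card : ℤ) :=
    Finset.sum_nonneg fun w _ => Int.natCast_nonneg _
  rw [Finset.sum_const, nsmul_eq_mul] at h3 h4
  rw [Finset.sum_sub_distrib, Finset.sum_const, nsmul_eq_mul] at h1 h2
  rw [← Finset.mul_sum] at h2
  have h6 : (0 : ℤ) ≤ c.P.card := Int.natCast_nonneg _
  have h7 : (3 : ℤ) ≤ c.U.card := by exact_mod_cast hcon
  set τ : ℤ := (c.U.card : ℤ)
  set θ : ℤ := ∑ w ∈ c.U, ((c.U ∩ c.N w).card : ℤ)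
  have h8 : τ ≤ 3 := by nlinarith
  have h9 : τ = 3 := by omega
  rw [h9] at h1 h2 h4
  have h10 : c.S ≤ 5 := by linarith
  have h11 : c.S = 5 := by omega
  rw [h11] at h1 h2 h3
  linarith

/-- vertices of `H` have all their neighbours in `P` -/
theorem H_nbr {a b : V} (ha : a ∈ c.H) (hb : b ∈ c.N a) : b ∈ c.P := by
  rw [mem_H] at ha
  have ha' := c.mem_P.1 ha.1
  rw [mem_P]
  refine ⟨ha'.2 b hb, fun w hw hwS => ?_⟩
  have h1 := c.far (ha'.2 b hb) hwS hw (c.symm a b hb) (by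
    rintro rfl
    exact ha'.1 hwS)
  omega

theorem R_nbr {u j w : V} (hu : c.g u = c.S) (hj : j ∈ c.R u) (hjS : c.g j ≠ c.S)
    (hw : w ∈ c.N j) (hwu : w ≠ u) : w ∈ c.Z := by
  rw [mem_R] at hj
  have h1 := c.far hjS hu (c.symm u j hj.1) hw hwu
  have hS := c.S_ge
  rw [mem_Z, mem_P]
  refine ⟨⟨by omega, fun w' hw' hS' => ?_⟩, h1⟩
  have h2 := c.far (v := w) (by omega) hS' hw' (c.symm j w hw) (by
    rintro rfl
    exact hjS hS')
  omega

theorem R_card {u j : V} (hu : c.g u = c.S) (hj : j ∈ c.R u) (hjS : c.g j ≠ c.S) :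
    ((c.Z ∩ c.N j).card : ℤ) = c.g j + 1 := by
  have huj : u ∈ c.N j := c.symm u j (c.mem_R.1 hj).1
  have h1 : c.Z ∩ c.N j = (c.N j).erase u := by
    ext w
    rw [mem_inter, mem_erase]
    constructor
    · rintro ⟨h1, h2⟩
      refine ⟨?_, h2⟩
      rintro rfl
      have := (c.mem_Z.1 h1).2
      have := c.S_ge
      omega
    · rintro ⟨h1, h2⟩
      exact ⟨c.R_nbr hu hj hjS h2 h1, h2⟩
  rw [h1, Finset.card_erase_of_mem huj]
  have := c.card j
  have h3 : 0 < (c.N j).card := Finset.card_pos.2 ⟨u, huj⟩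
  omega

/-- sums over `R u`, if `u ∈ U` has no neighbour in `U` -/
theorem R_sum {u : V} : ∑ v ∈ c.R u, c.g v =
    c.S + ((c.N u).filter (fun v => c.g v = -1)).card := by
  have h1 : ∑ v ∈ c.N u, c.g v = ∑ v ∈ c.R u, c.g v -
      ((c.N u).filter (fun v => c.g v = -1)).card := by
    rw [R, Finset.card_filter, Finset.sum_filter]
    push_cast
    rw [← Finset.sum_sub_distrib]
    refine Finset.sum_congr rfl fun v _ => ?_
    have := c.g_ge v
    split_ifs <;> omega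
  rw [c.sum] at h1
  linarith

theorem R_sq {u : V} : ∑ v ∈ c.N u, c.g v ^ 2 = ∑ v ∈ c.R u, c.g v ^ 2 +
      ((c.N u).filter (fun v => c.g v = -1)).card := by
  rw [R, Finset.card_filter, Finset.sum_filter]
  push_cast
  rw [← Finset.sum_add_distrib]
  refine Finset.sum_congr rfl fun v _ => ?_
  have := c.g_ge v
  split_ifs with h1 h2 h2
  · omega
  · ring
  · rw [h2]; norm_num
  · have : c.g v = 0 := by omega
    rw [this]; norm_num

theorem R_two {u : V} (h0 : ∀ v ∈ c.N u, c.g v ≠ c.S) : 2 ≤ (c.R u).card := by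
  by_contra hcon
  push Not at hcon
  have hS := c.S_ge
  have h1 : ∑ v ∈ c.R u, c.g v ≤ ∑ v ∈ c.R u, (c.S - 1) := by
    refine Finset.sum_le_sum fun v hv => ?_
    have h2 := h0 v (c.mem_R.1 hv).1
    have h3 := c.g_le v
    omega
  rw [c.R_sum, Finset.sum_const, nsmul_eq_mul] at h1
  have h2 : ((c.R u).card : ℤ) ≤ 1 := by
    have : (c.R u).card ≤ 1 := by omega
    exact_mod_cast this
  nlinarith

/-- the neighbours of the vertices of `Z` -/
theorem Z_nbr {z : V} (hz : z ∈ c.Z) : ∃ a b, a ≠ b ∧ c.N z = {a, b} ∧ c.g a + c.g b = c.S ∧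
    1 ≤ c.g a ∧ 1 ≤ c.g b ∧ c.g a ≠ c.S ∧ c.g b ≠ c.S := by
  rw [mem_Z] at hz
  have hP := c.mem_P.1 hz.1
  obtain ⟨a, b, hab, h1, h2⟩ := c.zero_nbrs hz.2
  have ha : a ∈ c.N z := by rw [h1]; simp
  have hb : b ∈ c.N z := by rw [h1]; simp
  have h3 := c.nbr_nonneg hP.1 ha
  have h4 := c.nbr_nonneg hP.1 hb
  have h5 := hP.2 a ha
  have h6 := hP.2 b hb
  exact ⟨a, b, hab, h1, h2, by omega, by omega, h5, h6⟩

theorem exists_H {s : ℤ} (hs : 0 < s) (h : ∑ v ∈ c.P, c.g v = s) : ∃ a, a ∈ c.H := by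
  by_contra hcon
  push Not at hcon
  have h1 : ∑ v ∈ c.P, c.g v = 0 := by
    refine Finset.sum_eq_zero fun v hv => ?_
    have h2 := c.P_bds hv
    have h3 := hcon v
    rw [mem_H] at h3
    by_contra h4
    exact h3 ⟨hv, by omega⟩
  omega

end Cfg

end Pool.Agent.Q147.PK
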