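import Pool.Agent.Q147.PK.CaseA

/-!
# One large vertex
-/

set_option autoImplicit false

namespace Pool.Agent.Q147.PK

open Finset

namespace Cfg

variable {V : Type} [Fintype V] [DecidableEq V] (c : Cfg V)

theorem one (hU : ∀ v, c.g v ≠ c.S) {G : V} (hL : c.L = {G}) : False := by
  have hS := c.S_ge
  have nn := c.nn hU
  have hGL : c.S < 2 * c.g G := by
    rw [← c.mem_L, hL, mem_singleton]
  have hlt := c.glt hU G
  have hle := c.le G
  have mO : ∀ v, v ∈ c.O ↔ G ∉ c.N v := by
    intro v
    rw [c.mem_O, hL]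
    constructor
    · intro h hG
      exact h G hG (mem_singleton_self G)
    · intro h w hw hwG
      rw [mem_singleton] at hwG
      exact h (hwG ▸ hw)
  have hcard := c.cardO hU
  have hsum := c.sumO hU
  rw [hL, Finset.sum_singleton] at hcard
  rw [hL, Finset.card_singleton] at hsum
  push_cast at hsum
  have hGO : G ∈ c.O := (mO G).2 (c.irr G)
  -- outsiders
  have hE : ∀ v ∈ c.O.erase G, c.g v = 1 := by
    have h1 : ∑ v ∈ c.O.erase G, (c.g v - 1) = 0 := by
      have h2 := Finset.add_sum_erase c.O (fun v => c.g v - 1) hGO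
      simp only [Finset.sum_sub_distrib, Finset.sum_const, nsmul_eq_mul, mul_one] at h2 ⊢
      rw [Finset.card_erase_of_mem hGO] at h2 ⊢
      have h3 : 1 ≤ c.O.card := Finset.card_pos.2 ⟨G, hGO⟩
      push_cast [Nat.cast_sub h3] at h2 ⊢
      linarith
    intro v hv
    rw [Finset.sum_eq_zero_iff_of_nonneg (fun w hw => by
      have := c.posO hU (mem_of_mem_erase hw); omega)] at h1
    have := h1 v hv
    omega
  have hEcard : ((c.O.erase G).card : ℤ) = 17 - c.g G := by
    rw [Finset.card_erase_of_mem hGO]
    have h3 : 1 ≤ c.O.card := Finset.card_pos.2 ⟨G, hGO⟩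
    rw [Nat.cast_sub h3]
    push_cast
    linarith
  -- zeros
  have hz : ∀ z, c.g z = 0 → ∃ y, G ≠ y ∧ c.N z = {G, y} ∧ c.g y = c.S - c.g G := by
    intro z h0
    refine c.zero_other h0 ?_
    by_contra h
    have := c.posO hU ((mO z).2 h)
    omega
  -- an outsider has no zero neighbour
  have hEz : ∀ v ∈ c.O.erase G, ∀ z ∈ c.N v, c.g z ≠ 0 := by
    intro v hv z hzv h0
    have h1 : ∀ w ∈ c.N v, 2 * c.g w + 1 ≤ c.S := fun w hw =>
      c.not_L (c.mem_O.1 (mem_of_mem_erase hv) w hw)
    have h2 := Finset.add_sum_erase (c.N v) c.g hzv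
    rw [c.sum, h0] at h2
    have h3 : ∑ w ∈ (c.N v).erase z, (2 * c.g w + 1) ≤ ∑ w ∈ (c.N v).erase z, c.S :=
      Finset.sum_le_sum fun w hw => h1 w (mem_of_mem_erase hw)
    rw [Finset.sum_add_distrib, ← Finset.mul_sum, Finset.sum_const, Finset.sum_const,
      Finset.card_erase_of_mem hzv, nsmul_eq_mul, nsmul_eq_mul] at h3
    have h4 := c.card v
    rw [hE v hv] at h4
    have h5 : (c.N v).card = 3 := by omega
    rw [h5] at h3
    push_cast at h3
    linarith
  -- all vertices other than `G` have `g ≤ b`
  have hb : ∀ v, v ≠ G → c.g v ≤ c.S - c.g G := by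
    intro v hv
    by_cases hvO : v ∈ c.O
    · have := hE v (mem_erase.2 ⟨hv, hvO⟩)
      omega
    · have hGv : G ∈ c.N v := by
        by_contra h
        exact hvO ((mO v).2 h)
      by_contra hcon
      push Not at hcon
      -- no zero neighbour
      have h1 : ∀ z ∈ c.N v, 1 ≤ c.g z := by
        intro z hzv
        by_contra h
        have h0 : c.g z = 0 := by have := nn z; omega
        obtain ⟨y, _, h2, h3⟩ := hz z h0
        have h4 : v ∈ c.N z := c.symm v z hzv
        rw [h2, mem_insert, mem_singleton] at h4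
        rcases h4 with h4 | h4
        · exact hv h4
        · rw [h4] at hcon
          omega
      have h2 := Finset.add_sum_erase (c.N v) c.g hGv
      rw [c.sum] at h2
      have h3 : ∑ w ∈ (c.N v).erase G, (1 : ℤ) ≤ ∑ w ∈ (c.N v).erase G, c.g w :=
        Finset.sum_le_sum fun w hw => h1 w (mem_of_mem_erase hw)
      rw [Finset.sum_const, Finset.card_erase_of_mem hGv, nsmul_eq_mul, mul_one] at h3
      have h4 := c.card v
      have h5 : 1 ≤ (c.N v).card := Finset.card_pos.2 ⟨G, hGv⟩
      rw [Nat.cast_sub h5, h4] at h3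
      push_cast at h3
      linarith
  -- `S ≤ 3 b`
  have h3b : c.S ≤ 3 * (c.S - c.g G) := by
    have h1 : 0 < (c.O.erase G).card := by omega
    obtain ⟨w, hw⟩ := Finset.card_pos.1 h1
    have h2 : ∑ v ∈ c.N w, c.g v ≤ ∑ v ∈ c.N w, (c.S - c.g G) := by
      refine Finset.sum_le_sum fun v hv => hb v ?_
      rintro rfl
      exact (mO w).1 (mem_of_mem_erase hw) hv
    rw [c.sum, Finset.sum_const, nsmul_eq_mul, c.card, hE w hw] at h2
    linarith
  -- the quadratic inequality
  have hQ : 18 * c.S - 34 ≤ (c.S - c.g G) * c.S + c.g G ^ 2 + 17 - c.g G := by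
    have h1 := c.sumF hU (fun v => c.g v ^ 2)
    rw [c.sumsq, hL, Finset.sum_singleton] at h1
    have h2 : ∑ v ∈ c.N G, c.g v ^ 2 ≤ ∑ v ∈ c.N G, (c.S - c.g G) * c.g v := by
      refine Finset.sum_le_sum fun v hv => ?_
      have h3 := hb v (by rintro rfl; exact c.irr v hv)
      have h4 := nn v
      nlinarith
    rw [← Finset.mul_sum, c.sum] at h2
    have h5 := Finset.add_sum_erase c.O (fun v => c.g v ^ 2) hGO
    have h6 : ∑ v ∈ c.O.erase G, c.g v ^ 2 = ∑ v ∈ c.O.erase G, (1 : ℤ) :=
      Finset.sum_congr rfl fun v hv => by rw [hE v hv]; norm_num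
    rw [h6, Finset.sum_const, nsmul_eq_mul, mul_one, hEcard] at h5
    linarith
  -- the neighbour of a zero
  obtain ⟨z, hz0⟩ := c.exz hU
  obtain ⟨y, hGy, hzN, hgy⟩ := hz z hz0
  have hyz : y ∈ c.N z := by rw [hzN]; simp
  have hzy : z ∈ c.N y := c.symm z y hyz
  have hyO : y ∉ c.O := fun h => hEz y (mem_erase.2 ⟨hGy.symm, h⟩) z hzy hz0
  have nO : ∀ v, v ∉ c.O → G ∈ c.N v := by
    intro v h
    by_contra h'
    exact h ((mO v).2 h')
  have hGy' := nO y hyO
  have hbound : c.S - c.g G ≤ 17 - c.g G := by
    by_cases hβ : ∃ p ∈ c.N y, p ≠ G ∧ 1 ≤ c.g p ∧ p ∉ c.O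
    · exfalso
      obtain ⟨p, hpy, hpG, hp1, hpO⟩ := hβ
      have hGp := nO p hpO
      have hyp : y ∈ c.N p := c.symm y p hpy
      -- the other neighbours of `p` are zeros
      have hpz : ∀ w ∈ ((c.N p).erase G).erase y, c.g w = 0 := by
        have h1 := Finset.add_sum_erase (c.N p) c.g hGp
        have h2 := Finset.add_sum_erase ((c.N p).erase G) c.g (a := y)
          (mem_erase.2 ⟨hGy.symm, hyp⟩)
        rw [c.sum] at h1
        have h3 : ∑ w ∈ ((c.N p).erase G).erase y, c.g w = 0 := by linarith
        rw [Finset.sum_eq_zero_iff_of_nonneg (fun w _ => nn w)] at h3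
        exact h3
      have hpc : ((((c.N p).erase G).erase y).card : ℤ) = c.g p := by
        rw [Finset.card_erase_of_mem (mem_erase.2 ⟨hGy.symm, hyp⟩),
          Finset.card_erase_of_mem hGp]
        have := c.card p
        omega
      -- so `g p = b`
      have hgp : c.g p = c.S - c.g G := by
        have h1 : 0 < (((c.N p).erase G).erase y).card := by omega
        obtain ⟨w, hw⟩ := Finset.card_pos.1 h1
        obtain ⟨q, _, h2, h3⟩ := hz w (hpz w hw)
        have h4 : p ∈ c.N w := c.symm p w (mem_of_mem_erase (mem_of_mem_erase hw))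
        rw [h2, mem_insert, mem_singleton] at h4
        rcases h4 with h4 | h4
        · exact absurd h4 hpG
        · rw [h4, h3]
      have hyz' : ∀ w ∈ ((c.N y).erase G).erase p, c.g w = 0 := by
        have h1 := Finset.add_sum_erase (c.N y) c.g hGy'
        have h2 := Finset.add_sum_erase ((c.N y).erase G) c.g (a := p)
          (mem_erase.2 ⟨hpG, hpy⟩)
        rw [c.sum] at h1
        have h3 : ∑ w ∈ ((c.N y).erase G).erase p, c.g w = 0 := by linarith
        rw [Finset.sum_eq_zero_iff_of_nonneg (fun w _ => nn w)] at h3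
        exact h3
      have hyc : ((((c.N y).erase G).erase p).card : ℤ) = c.g y := by
        rw [Finset.card_erase_of_mem (mem_erase.2 ⟨hpG, hpy⟩),
          Finset.card_erase_of_mem hGy']
        have := c.card y
        omega
      set A := ((c.N p).erase G).erase y with hA
      set B := ((c.N y).erase G).erase p with hB
      have hdisj : Disjoint A B := by
        rw [Finset.disjoint_left]
        intro w hwA hwB
        obtain ⟨q, _, h2, h3⟩ := hz w (hpz w hwA)
        have h4 : p ∈ c.N w := c.symm p w (mem_of_mem_erase (mem_of_mem_erase hwA))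
        have h5 : y ∈ c.N w := c.symm y w (mem_of_mem_erase (mem_of_mem_erase hwB))
        rw [h2, mem_insert, mem_singleton] at h4 h5
        have h6 : p = q := by tauto
        have h7 : y = q := by
          rcases h5 with h5 | h5
          · exact absurd h5.symm hGy
          · exact h5
        rw [h6, ← h7] at hpy
        exact c.irr y hpy
      have hsub : A ∪ B ⊆ c.N G := by
        intro w hw
        have h0 : c.g w = 0 := by
          rw [mem_union] at hw
          rcases hw with hw | hw
          · exact hpz w hw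
          · exact hyz' w hw
        obtain ⟨q, _, h2, _⟩ := hz w h0
        apply c.symm w G
        rw [h2]
        simp
      have h1 := Finset.sum_sdiff (f := c.g) hsub
      have h2 : ∑ w ∈ A ∪ B, c.g w = 0 := by
        refine Finset.sum_eq_zero fun w hw => ?_
        rw [mem_union] at hw
        rcases hw with hw | hw
        · exact hpz w hw
        · exact hyz' w hw
      rw [c.sum, h2] at h1
      have h3 : ∑ w ∈ c.N G \ (A ∪ B), c.g w ≤ ∑ w ∈ c.N G \ (A ∪ B), (c.S - c.g G) := by
        refine Finset.sum_le_sum fun w hw => hb w ?_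
        rintro rfl
        exact c.irr w (mem_sdiff.1 hw).1
      have h4 := Finset.card_sdiff_add_card_eq_card hsub
      rw [Finset.card_union_of_disjoint hdisj] at h4
      have h5 := c.card G
      rw [Finset.sum_const, nsmul_eq_mul] at h3
      have h6 : ((c.N G \ (A ∪ B)).card : ℤ) = c.g G + 2 - 2 * (c.S - c.g G) := by
        have : ((c.N G \ (A ∪ B)).card : ℤ) + ((A.card : ℤ) + B.card) = (c.N G).card := by
          exact_mod_cast h4
        rw [hpc, hyc, hgp, hgy, h5] at this
        linarith
      rw [h6] at h3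
      nlinarith
    · push Not at hβ
      have h1 := Finset.add_sum_erase (c.N y) c.g hGy'
      rw [c.sum] at h1
      have h2 : ∑ w ∈ (c.N y).erase G, c.g w ≤
          ∑ w ∈ (c.N y).erase G, (if w ∈ c.O.erase G then (1 : ℤ) else 0) := by
        refine Finset.sum_le_sum fun w hw => ?_
        rw [mem_erase] at hw
        split_ifs with h
        · rw [hE w h]
        · by_contra hcon
          have h3 := hβ w hw.2 hw.1 (by omega)
          exact h (mem_erase.2 ⟨hw.1, h3⟩)
      rw [← Finset.sum_filter, Finset.sum_const, nsmul_eq_mul, mul_one] at h2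
      have h3 : (((c.N y).erase G).filter (fun w => w ∈ c.O.erase G)).card ≤
          (c.O.erase G).card :=
        Finset.card_le_card fun w hw => (mem_filter.1 hw).2
      omega
  -- numbers
  obtain ⟨k, hk⟩ := c.S_odd
  generalize c.g G = γ at *
  generalize c.S = s at *
  have hγ : 3 ≤ γ := by omega
  have hs : s ≤ 17 := by omega
  interval_cases γ <;> (first | omega | (interval_cases s <;> omega))

end Cfg

end Pool.Agent.Q147.PK
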