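import Pool.Agent.Q147.PK.CaseA

/-!
# Three large vertices
-/

set_option autoImplicit false

namespace Pool.Agent.Q147.PK

open Finset

namespace Cfg

variable {V : Type} [Fintype V] [DecidableEq V] (c : Cfg V)

/-- the indicator of `g = 2` -/
def t (v : V) : ℤ := if c.g v = 2 then 1 else 0

theorem t_nonneg (v : V) : 0 ≤ c.t v := by
  unfold t; split_ifs <;> norm_num

theorem three (hU : ∀ v, c.g v ≠ c.S) {G H K : V} (hGH : G ≠ H) (hGK : G ≠ K) (hHK : H ≠ K)
    (hL : c.L = {G, H, K}) (hadj : H ∈ c.N G) : False := by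
  have hS := c.S_ge
  have nn := c.nn hU
  have mL : ∀ v, v ∈ c.L ↔ v = G ∨ v = H ∨ v = K := by
    intro v
    rw [hL, mem_insert, mem_insert, mem_singleton]
  have hGm : G ∈ c.L := (mL G).2 (Or.inl rfl)
  have hHm : H ∈ c.L := (mL H).2 (Or.inr (Or.inl rfl))
  have hKm : K ∈ c.L := (mL K).2 (Or.inr (Or.inr rfl))
  have hGL := c.mem_L.1 hGm
  have hHL := c.mem_L.1 hHm
  have hKL := c.mem_L.1 hKm
  have hadj' : G ∈ c.N H := c.symm G H hadj
  have hKG : K ∉ c.N G := fun h =>
    hHK (Finset.card_le_one.1 (c.L1 hU G) H (mem_inter.2 ⟨hHm, hadj⟩) K (mem_inter.2 ⟨hKm, h⟩))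
  have hKH : K ∉ c.N H := fun h =>
    hGK (Finset.card_le_one.1 (c.L1 hU H) G (mem_inter.2 ⟨hGm, hadj'⟩) K (mem_inter.2 ⟨hKm, h⟩))
  have hKO : K ∈ c.O := by
    rw [c.mem_O]
    intro w hw hwL
    rcases (mL w).1 hwL with rfl | rfl | rfl
    · exact hKG (c.symm K w hw)
    · exact hKH (c.symm K w hw)
    · exact c.irr w hw
  have hcard := c.cardO hU
  have hsum := c.sumO hU
  rw [hL, Finset.sum_insert (by simp [hGH, hGK]), Finset.sum_pair hHK] at hcard
  rw [hL, Finset.card_insert_of_notMem (by simp [hGH, hGK]), Finset.card_pair hHK] at hsum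
  push_cast at hsum
  have hS5 : c.S = 5 := by
    have h1 := Finset.single_le_sum (fun v hv => nn v) hKO (f := c.g)
    obtain ⟨k, hk⟩ := c.S_odd
    omega
  have hltG := c.glt hU G
  have hltH := c.glt hU H
  have hltK := c.glt hU K
  have small : ∀ v, v ∉ c.L → c.g v ≤ 2 := fun v hv => by
    have := c.not_L hv
    omega
  have big : ∀ v, v ∈ c.L → 3 ≤ c.g v := fun v hv => by
    have := c.mem_L.1 hv
    omega
  have s5 : ∀ v, ∑ w ∈ c.N v, c.g w = 5 := fun v => by rw [c.sum, hS5]
  set W := c.O.erase K with hW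
  have hWO : ∀ v, v ∈ c.O ↔ v = K ∨ v ∈ W := by
    intro v
    rw [hW, mem_erase]
    constructor
    · intro h
      by_cases hv : v = K
      · exact Or.inl hv
      · exact Or.inr ⟨hv, h⟩
    · rintro (rfl | h)
      · exact hKO
      · exact h.2
  have hWL : ∀ v ∈ W, v ∉ c.L := by
    intro v hv hvL
    rw [hW, mem_erase] at hv
    rcases (mL v).1 hvL with rfl | rfl | rfl
    · exact (c.mem_O.1 hv.2) H hadj hHm
    · exact (c.mem_O.1 hv.2) G hadj' hGm
    · exact hv.1 rfl
  have hWpos : ∀ v ∈ W, 1 ≤ c.g v := fun v hv => c.posO hU (mem_of_mem_erase hv)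
  have hWcard : (W.card : ℤ) = 13 - (c.g G + c.g H + c.g K) := by
    rw [hW, Finset.card_erase_of_mem hKO]
    have h3 : 1 ≤ c.O.card := Finset.card_pos.2 ⟨K, hKO⟩
    rw [Nat.cast_sub h3]
    push_cast
    linarith
  have hWsum : ∑ v ∈ W, c.g v = 7 - c.g K := by
    have h := Finset.add_sum_erase c.O c.g hKO
    rw [hS5] at hsum
    linarith
  -- the indicator
  have t1 : ∀ v, v ∈ c.L → c.t v = 0 := by
    intro v hv
    have := big v hv
    unfold t
    rw [if_neg (by omega)]
  have t2 : ∀ v, 2 * c.t v ≤ c.g v := by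
    intro v
    have := nn v
    unfold t
    split_ifs with h
    · omega
    · omega
  have t3 : ∀ v, c.t v = 0 → c.g v ≠ 2 := by
    intro v h h'
    unfold t at h
    rw [if_pos h'] at h
    exact one_ne_zero h
  have t4 : ∀ v, c.g v = 2 → c.t v = 1 := fun v h => by unfold t; rw [if_pos h]
  have hAG : 2 * ∑ v ∈ c.N G, c.t v ≤ 5 - c.g H := by
    have h1 := Finset.add_sum_erase (c.N G) c.g hadj
    have h2 := Finset.add_sum_erase (c.N G) c.t hadj
    rw [t1 H hHm] at h2
    rw [s5] at h1
    have h3 : ∑ v ∈ (c.N G).erase H, 2 * c.t v ≤ ∑ v ∈ (c.N G).erase H, c.g v :=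
      Finset.sum_le_sum fun v _ => t2 v
    rw [← Finset.mul_sum] at h3
    linarith
  have hAH : 2 * ∑ v ∈ c.N H, c.t v ≤ 5 - c.g G := by
    have h1 := Finset.add_sum_erase (c.N H) c.g hadj'
    have h2 := Finset.add_sum_erase (c.N H) c.t hadj'
    rw [t1 G hGm] at h2
    rw [s5] at h1
    have h3 : ∑ v ∈ (c.N H).erase G, 2 * c.t v ≤ ∑ v ∈ (c.N H).erase G, c.g v :=
      Finset.sum_le_sum fun v _ => t2 v
    rw [← Finset.mul_sum] at h3
    linarith
  have hAK : 2 * ∑ v ∈ c.N K, c.t v ≤ 5 := by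
    rw [Finset.mul_sum, ← s5 K]
    exact Finset.sum_le_sum fun v _ => t2 v
  have hAW : ∑ v ∈ c.O, c.t v = c.g G + c.g H - 6 := by
    have h := Finset.add_sum_erase c.O c.t hKO
    rw [t1 K hKm] at h
    have h2 : ∑ v ∈ W, c.t v = ∑ v ∈ W, (c.g v - 1) := by
      refine Finset.sum_congr rfl fun v hv => ?_
      have h3 := hWpos v hv
      have h4 := small v (hWL v hv)
      unfold t
      split_ifs <;> omega
    rw [Finset.sum_sub_distrib, Finset.sum_const, nsmul_eq_mul, mul_one, hWcard, hWsum] at h2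
    linarith
  have nG : 0 ≤ ∑ v ∈ c.N G, c.t v := Finset.sum_nonneg fun v _ => c.t_nonneg v
  have nH : 0 ≤ ∑ v ∈ c.N H, c.t v := Finset.sum_nonneg fun v _ => c.t_nonneg v
  have nK : 0 ≤ ∑ v ∈ c.N K, c.t v := Finset.sum_nonneg fun v _ => c.t_nonneg v
  have htot : ∑ v, c.t v = ∑ v ∈ c.N G, c.t v + (∑ v ∈ c.N H, c.t v + ∑ v ∈ c.N K, c.t v) +
      (c.g G + c.g H - 6) := by
    have h := c.sumF hU c.t
    rw [hL, Finset.sum_insert (by simp [hGH, hGK]), Finset.sum_pair hHK, hAW] at h
    exact h
  have hn2 : 34 = c.g G * (c.g G - 1) + (c.g H * (c.g H - 1) + c.g K * (c.g K - 1)) +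
      2 * ∑ v, c.t v := by
    have h1 : ∑ v ∈ c.L, (c.g v * (c.g v - 1) - 2 * c.t v) =
        ∑ v, (c.g v * (c.g v - 1) - 2 * c.t v) := by
      refine Finset.sum_subset (Finset.subset_univ _) fun v _ hv => ?_
      have h2 := small v hv
      have h3 := nn v
      unfold t
      have h4 : c.g v = 0 ∨ c.g v = 1 ∨ c.g v = 2 := by omega
      rcases h4 with h | h | h <;> simp [h]
    have h5 : ∑ v, (c.g v * (c.g v - 1) - 2 * c.t v) =
        ∑ v, c.g v ^ 2 - ∑ v, c.g v - 2 * ∑ v, c.t v := by
      rw [Finset.mul_sum, ← Finset.sum_sub_distrib, ← Finset.sum_sub_distrib]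
      refine Finset.sum_congr rfl fun v _ => ?_
      ring
    rw [h5, c.sumsq, c.tot, hS5, hL, Finset.sum_insert (by simp [hGH, hGK]),
      Finset.sum_pair hHK, t1 G hGm, t1 H hHm, t1 K hKm] at h1
    linarith
  have hcases : (c.g G = 4 ∧ c.g H = 4 ∧ c.g K = 3 ∧ ∑ v ∈ c.N G, c.t v = 0 ∧
      ∑ v ∈ c.N H, c.t v = 0 ∧ ∑ v ∈ c.N K, c.t v = 0) ∨
      (c.g G + c.g H = 7 ∧ c.g K = 4 ∧ ∑ v, c.t v = 2) := by
    have g1 : c.g G = 3 ∨ c.g G = 4 := by omega
    have g2 : c.g H = 3 ∨ c.g H = 4 := by omega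
    have g3 : c.g K = 3 ∨ c.g K = 4 := by omega
    rcases g1 with h1 | h1 <;> rcases g2 with h2 | h2 <;> rcases g3 with h3 | h3 <;>
      rw [h1, h2, h3] at hn2 <;> rw [h1, h2] at htot <;> rw [h2] at hAG <;> rw [h1] at hAH <;>
      rw [h1, h2, h3] <;> omega
  -- lower bound for the number of twos among the neighbours of a vertex of `O`
  have hOt : ∀ v ∈ c.O, 5 - (c.g v + 2) ≤ ∑ w ∈ c.N v, c.t w := by
    intro v hv
    have h1 : ∑ w ∈ c.N v, c.g w ≤ ∑ w ∈ c.N v, (c.t w + 1) := by
      refine Finset.sum_le_sum fun w hw => ?_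
      have h2 := small w (c.mem_O.1 hv w hw)
      have h3 := nn w
      unfold t
      split_ifs <;> omega
    rw [s5, Finset.sum_add_distrib, Finset.sum_const, nsmul_eq_mul, mul_one, c.card] at h1
    linarith
  have pair_le : ∀ v a b, a ≠ b → a ∈ c.N v → b ∈ c.N v → c.g a + c.g b ≤ 5 := by
    intro v a b hab ha hb
    rw [← s5 v, ← Finset.sum_pair hab]
    refine Finset.sum_le_sum_of_subset_of_nonneg ?_ fun w _ _ => nn w
    intro w hw
    rw [mem_insert, mem_singleton] at hw
    rcases hw with rfl | rfl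
    · exact ha
    · exact hb
  have triple_le : ∀ v a b d, a ≠ b → a ≠ d → b ≠ d → a ∈ c.N v → b ∈ c.N v → d ∈ c.N v →
      c.g a + (c.g b + c.g d) ≤ 5 := by
    intro v a b d hab had hbd ha hb hd
    rw [← s5 v, ← Finset.sum_pair hbd, ← Finset.sum_insert (s := {b, d}) (a := a) (f := c.g)
      (by simp [hab, had])]
    refine Finset.sum_le_sum_of_subset_of_nonneg ?_ fun w _ _ => nn w
    intro w hw
    rw [mem_insert, mem_insert, mem_singleton] at hw
    rcases hw with rfl | rfl | rfl
    · exact ha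
    · exact hb
    · exact hd
  rcases hcases with ⟨h1, h2, h3, hG0, hH0, hK0⟩ | ⟨h1, h2, h3⟩
  · rw [Finset.sum_eq_zero_iff_of_nonneg (fun v _ => c.t_nonneg v)] at hG0 hH0 hK0
    have hW2 : W.card = 2 := by omega
    have hWall : ∀ v ∈ W, c.g v = 2 := by
      have h4 : ∑ v ∈ W, (2 - c.g v) = 0 := by
        rw [Finset.sum_sub_distrib, Finset.sum_const, nsmul_eq_mul, hWsum, hW2, h3]
        norm_num
      rw [Finset.sum_eq_zero_iff_of_nonneg (fun v hv => by
        have := small v (hWL v hv); omega)] at h4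
      intro v hv
      have := h4 v hv
      omega
    have htwo : ∀ v, c.g v = 2 → v ∈ W := by
      intro v hv
      have hvO : v ∈ c.O := by
        by_contra h
        obtain ⟨w, hw, hwv⟩ := c.not_O h
        have hvw := c.symm v w hwv
        have h5 : c.t v = 0 := by
          rcases (mL w).1 hw with rfl | rfl | rfl
          · exact hG0 v hvw
          · exact hH0 v hvw
          · exact hK0 v hvw
        exact t3 v h5 hv
      rcases (hWO v).1 hvO with rfl | h
      · omega
      · exact h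
    have main : ∀ a b : V, a ≠ b → W = {a, b} →
        (((c.N a).erase b).card = 3 ∧ ∀ v ∈ (c.N a).erase b, K ∈ c.N v ∧ b ∉ c.N v) := by
      intro a b hab hWab
      have haW : a ∈ W := by rw [hWab]; simp
      have hbW : b ∈ W := by rw [hWab]; simp
      have haO : a ∈ c.O := (hWO a).2 (Or.inr haW)
      have ga := hWall a haW
      have gb := hWall b hbW
      have hle1 : ∀ v ∈ c.N a, v ≠ b → c.g v ≤ 1 := by
        intro v hv hvb
        have h5 := small v (c.mem_O.1 haO v hv)
        by_contra h6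
        have h7 := htwo v (by omega)
        rw [hWab, mem_insert, mem_singleton] at h7
        rcases h7 with rfl | h7
        · exact c.irr v hv
        · exact hvb h7
      have hba : b ∈ c.N a := by
        by_contra hb
        have h5 : ∑ v ∈ c.N a, c.g v ≤ ∑ v ∈ c.N a, (1 : ℤ) :=
          Finset.sum_le_sum fun v hv => hle1 v hv (by rintro rfl; exact hb hv)
        rw [s5, Finset.sum_const, nsmul_eq_mul, mul_one, c.card, ga] at h5
        omega
      have hcard3 : ((c.N a).erase b).card = 3 := by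
        rw [Finset.card_erase_of_mem hba]
        have := c.card a
        omega
      have hone : ∀ v ∈ (c.N a).erase b, c.g v = 1 := by
        have h5 := Finset.add_sum_erase (c.N a) c.g hba
        rw [s5, gb] at h5
        have h6 : ∑ v ∈ (c.N a).erase b, (1 - c.g v) = 0 := by
          rw [Finset.sum_sub_distrib, Finset.sum_const, nsmul_eq_mul, hcard3]
          push_cast
          linarith
        rw [Finset.sum_eq_zero_iff_of_nonneg (fun v hv => by
          have := hle1 v (mem_of_mem_erase hv) (ne_of_mem_erase hv); omega)] at h6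
        intro v hv
        have := h6 v hv
        omega
      refine ⟨hcard3, fun v hv => ?_⟩
      have hv1 := hone v hv
      have hav : a ∈ c.N v := c.symm a v (mem_of_mem_erase hv)
      have hvO : v ∉ c.O := by
        intro h
        rcases (hWO v).1 h with rfl | h
        · omega
        · have := hWall v h
          omega
      obtain ⟨w, hw, hwv⟩ := c.not_O hvO
      have hwa : w ≠ a := by
        rintro rfl
        exact hWL w haW hw
      have hwb : w ≠ b := by
        rintro rfl
        exact hWL w hbW hw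
      have h5 := pair_le v w a hwa hwv hav
      have hwK : w = K := by
        rcases (mL w).1 hw with rfl | rfl | rfl
        · omega
        · omega
        · rfl
      subst hwK
      refine ⟨hwv, fun hb => ?_⟩
      have h6 := triple_le v w a b hwa hwb hab hwv hav hb
      omega
    obtain ⟨p, q, hpq, hWpq⟩ := Finset.card_eq_two.1 hW2
    obtain ⟨hp3, hp⟩ := main p q hpq hWpq
    obtain ⟨hq3, hq⟩ := main q p hpq.symm (by rw [hWpq, Finset.pair_comm])
    have hd : Disjoint ((c.N p).erase q) ((c.N q).erase p) := by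
      rw [Finset.disjoint_left]
      intro v hv hv'
      exact (hp v hv).2 (c.symm q v (mem_of_mem_erase hv'))
    have hs : (c.N p).erase q ∪ (c.N q).erase p ⊆ c.N K := by
      intro v hv
      rw [mem_union] at hv
      rcases hv with hv | hv
      · exact c.symm v K (hp v hv).1
      · exact c.symm v K (hq v hv).1
    have h5 := Finset.card_le_card hs
    rw [Finset.card_union_of_disjoint hd, hp3, hq3] at h5
    have := c.card K
    omega
  · have hW2 : W.card = 2 := by omega
    have main : ∀ p q : V, p ≠ q → W = {p, q} → c.g p = 1 → c.g q = 2 → False := by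
      intro p q hpq hWpq gp gq
      have hpW : p ∈ W := by rw [hWpq]; simp
      have hqW : q ∈ W := by rw [hWpq]; simp
      have hpO : p ∈ c.O := (hWO p).2 (Or.inr hpW)
      have hqO : q ∈ c.O := (hWO q).2 (Or.inr hqW)
      have h4 := hOt p hpO
      have h5 := hOt q hqO
      rw [gp] at h4
      rw [gq] at h5
      have h6 := Finset.sum_sdiff (f := c.t) (Finset.subset_univ (c.N p))
      have h7 : ∑ v ∈ univ \ c.N p, c.t v = 0 :=
        le_antisymm (by linarith) (Finset.sum_nonneg fun v _ => c.t_nonneg v)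
      rw [Finset.sum_eq_zero_iff_of_nonneg (fun v _ => c.t_nonneg v)] at h7
      have hin : ∀ v, c.g v = 2 → v ∈ c.N p := by
        intro v hv
        by_contra h
        exact t3 v (h7 v (mem_sdiff.2 ⟨mem_univ _, h⟩)) hv
      have hqp : q ∈ c.N p := hin q gq
      have hx : ∃ x ∈ c.N q, c.g x = 2 := by
        by_contra hcon
        push Not at hcon
        have h8 : ∑ w ∈ c.N q, c.t w = 0 :=
          Finset.sum_eq_zero fun w hw => by unfold t; rw [if_neg (hcon w hw)]
        omega
      obtain ⟨x, hxq, gx⟩ := hx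
      have hxp := hin x gx
      have hxO : x ∉ c.O := by
        intro h
        rcases (hWO x).1 h with rfl | h
        · omega
        · rw [hWpq, mem_insert, mem_singleton] at h
          rcases h with rfl | rfl
          · exact c.irr x hxp
          · exact c.irr x hxq
      obtain ⟨w, hw, hwx⟩ := c.not_O hxO
      have hwp : w ≠ p := by
        rintro rfl
        exact hWL w hpW hw
      have hwq : w ≠ q := by
        rintro rfl
        exact hWL w hqW hw
      have h8 := triple_le x w p q hwp hwq hpq hwx (c.symm p x hxp) (c.symm q x hxq)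
      have h9 := big w hw
      omega
    obtain ⟨p, q, hpq, hWpq⟩ := Finset.card_eq_two.1 hW2
    have hs := hWsum
    rw [hWpq, Finset.sum_pair hpq] at hs
    have gp := hWpos p (by rw [hWpq]; simp)
    have gq := hWpos q (by rw [hWpq]; simp)
    have : (c.g p = 1 ∧ c.g q = 2) ∨ (c.g q = 1 ∧ c.g p = 2) := by omega
    rcases this with ⟨h4, h5⟩ | ⟨h4, h5⟩
    · exact main p q hpq hWpq h4 h5
    · exact main q p hpq.symm (by rw [hWpq, Finset.pair_comm]) h4 h5

/-- the case of three large vertices -/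
theorem three' (hU : ∀ v, c.g v ≠ c.S) {G H K : V} (hGH : G ≠ H) (hGK : G ≠ K) (hHK : H ≠ K)
    (hL : c.L = {G, H, K}) : False := by
  by_cases h1 : H ∈ c.N G
  · exact c.three hU hGH hGK hHK hL h1
  by_cases h2 : K ∈ c.N G
  · exact c.three hU hGK hGH hHK.symm (by rw [hL]; ext; simp; tauto) h2
  by_cases h3 : K ∈ c.N H
  · exact c.three hU hHK hGH.symm hGK.symm (by rw [hL]; ext; simp; tauto) h3
  have hS := c.S_ge
  have mL : ∀ v, v ∈ c.L ↔ v = G ∨ v = H ∨ v = K := by
    intro v
    rw [hL, mem_insert, mem_insert, mem_singleton]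
  have hsub : c.L ⊆ c.O := by
    intro v hv
    rw [c.mem_O]
    intro w hw hwL
    rcases (mL v).1 hv with rfl | rfl | rfl <;> rcases (mL w).1 hwL with rfl | rfl | rfl
    · exact c.irr _ hw
    · exact h1 hw
    · exact h2 hw
    · exact h1 (c.symm _ _ hw)
    · exact c.irr _ hw
    · exact h3 hw
    · exact h2 (c.symm _ _ hw)
    · exact h3 (c.symm _ _ hw)
    · exact c.irr _ hw
  have h4 : ∑ v ∈ c.L, c.g v ≤ ∑ v ∈ c.O, c.g v :=
    Finset.sum_le_sum_of_subset_of_nonneg hsub fun v _ _ => c.nn hU v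
  have h5 : ∑ w ∈ c.L, (c.S + 1) ≤ ∑ w ∈ c.L, 2 * c.g w := by
    refine Finset.sum_le_sum fun v hv => ?_
    rw [mem_L] at hv
    omega
  rw [Finset.sum_const, nsmul_eq_mul, ← Finset.mul_sum] at h5
  rw [c.sumO hU] at h4
  have h6 : c.L.card = 3 := by
    rw [hL, Finset.card_insert_of_notMem (by simp [hGH, hGK]), Finset.card_pair hHK]
  rw [h6] at h4 h5
  push_cast at h4 h5
  omega

end Cfg

end Pool.Agent.Q147.PK
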