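import Pool.Agent.Q147.PK.CaseA

/-!
# Two large vertices
-/

set_option autoImplicit false

namespace Pool.Agent.Q147.PK

open Finset

theorem sum_sq_le {V : Type} [DecidableEq V] (s : Finset V) (f : V → ℤ) (hf : ∀ v ∈ s, 0 ≤ f v) :
    ∑ v ∈ s, f v ^ 2 ≤ (∑ v ∈ s, f v) ^ 2 := by
  rw [pow_two (∑ v ∈ s, f v), Finset.sum_mul]
  refine Finset.sum_le_sum fun v hv => ?_
  rw [pow_two]
  exact mul_le_mul_of_nonneg_left (Finset.single_le_sum hf hv) (hf v hv)

theorem num2 : ∀ s ∈ Finset.Icc (5 : ℤ) 17, ∀ a ∈ Finset.Icc (1 : ℤ) 16,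
    ∀ b ∈ Finset.Icc (1 : ℤ) 16, s % 2 = 1 → s < 2 * a → s < 2 * b → a < s → b < s →
    16 - (a + b) ≤ 17 - s → 0 ≤ 16 - (a + b) →
    2 * (17 - s) ≤ (s - 1) * (16 - (a + b)) →
    2 * (18 * s - 34) ≤ 2 * (a ^ 2 + b ^ 2 + (s - a) ^ 2 + (s - b) ^ 2) +
      (s + 1) * (17 - s) - (s - 1) * (16 - (a + b)) →
    a ^ 2 + b ^ 2 + 5 * (17 - s) - 6 * (16 - (a + b)) ≤ 18 * s - 34 →
    s * (16 - (a + b)) ≤ (15 - (a + b)) * (17 - s) + 2 * ((s - a) * (s - b)) → False := by
  decide +kernel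

namespace Cfg

variable {V : Type} [Fintype V] [DecidableEq V] (c : Cfg V)

theorem two (hU : ∀ v, c.g v ≠ c.S) {G H : V} (hGH : G ≠ H) (hL : c.L = {G, H}) : False := by
  have hS := c.S_ge
  have nn := c.nn hU
  have hGL : c.S < 2 * c.g G := by rw [← c.mem_L, hL]; simp
  have hHL : c.S < 2 * c.g H := by rw [← c.mem_L, hL]; simp
  have hcard := c.cardO hU
  have hsum := c.sumO hU
  rw [hL, Finset.sum_pair hGH] at hcard
  rw [hL, Finset.card_pair hGH] at hsum
  push_cast at hsum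
  have mO : ∀ v, v ∈ c.O ↔ G ∉ c.N v ∧ H ∉ c.N v := by
    intro v
    rw [c.mem_O, hL]
    constructor
    · intro h
      exact ⟨fun h1 => h G h1 (by simp), fun h1 => h H h1 (by simp)⟩
    · intro h w hw hw2
      rw [mem_insert, mem_singleton] at hw2
      rcases hw2 with rfl | rfl
      · exact h.1 hw
      · exact h.2 hw
  have hO1 : ∑ v ∈ c.O, (1 : ℤ) ≤ ∑ v ∈ c.O, c.g v := Finset.sum_le_sum fun v hv => c.posO hU hv
  rw [Finset.sum_const, nsmul_eq_mul, mul_one] at hO1
  by_cases hadj : H ∈ c.N G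
  · have hadj' : G ∈ c.N H := c.symm G H hadj
    have hOL : ∀ v ∈ c.O, 2 * c.g v + 1 ≤ c.S := by
      intro v hv
      apply c.not_L
      rw [hL, mem_insert, mem_singleton]
      rintro (rfl | rfl)
      · exact ((mO v).1 hv).2 hadj
      · exact ((mO v).1 hv).1 hadj'
    have hMO : ∑ v ∈ c.O, (2 * c.g v) ≤ ∑ v ∈ c.O, (c.S - 1) :=
      Finset.sum_le_sum fun v hv => by have := hOL v hv; omega
    rw [← Finset.mul_sum, Finset.sum_const, nsmul_eq_mul] at hMO
    -- squares over `O`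
    have hOup : ∑ v ∈ c.O, (2 * c.g v ^ 2) ≤ ∑ v ∈ c.O, ((c.S + 1) * c.g v - (c.S - 1)) := by
      refine Finset.sum_le_sum fun v hv => ?_
      have h1 := c.posO hU hv
      have h2 := hOL v hv
      nlinarith
    rw [← Finset.mul_sum, Finset.sum_sub_distrib, ← Finset.mul_sum, Finset.sum_const,
      nsmul_eq_mul] at hOup
    have hOlo : ∑ v ∈ c.O, (5 * c.g v - 6) ≤ ∑ v ∈ c.O, c.g v ^ 2 := by
      refine Finset.sum_le_sum fun v hv => ?_
      rcases le_or_gt (c.g v) 2 with h | h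
      · nlinarith
      · nlinarith
    rw [Finset.sum_sub_distrib, ← Finset.mul_sum, Finset.sum_const, nsmul_eq_mul] at hOlo
    have hsq := c.sumF hU (fun v => c.g v ^ 2)
    rw [c.sumsq, hL, Finset.sum_pair hGH] at hsq
    have key : ∀ A B : V, B ∈ c.N A → ∑ v ∈ c.N A, c.g v ^ 2 ≤ c.g B ^ 2 + (c.S - c.g B) ^ 2 ∧
        c.g B ^ 2 ≤ ∑ v ∈ c.N A, c.g v ^ 2 := by
      intro A B hBA
      have h1 := Finset.add_sum_erase (c.N A) (fun v => c.g v ^ 2) hBA
      have h2 := Finset.add_sum_erase (c.N A) c.g hBA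
      have h3 := sum_sq_le ((c.N A).erase B) c.g (fun v _ => nn v)
      have h4 : 0 ≤ ∑ v ∈ (c.N A).erase B, c.g v ^ 2 := Finset.sum_nonneg fun v _ => sq_nonneg _
      rw [c.sum] at h2
      have h5 : ∑ v ∈ (c.N A).erase B, c.g v = c.S - c.g B := by linarith
      rw [h5] at h3
      constructor <;> linarith
    have kG := key G H hadj
    have kH := key H G hadj'
    -- double counting
    have hdc := c.dc c.O univ c.g
    simp only [Finset.univ_inter, c.sum, Finset.sum_const, nsmul_eq_mul] at hdc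
    rw [c.sumF hU (fun v => c.g v * ((c.O ∩ c.N v).card : ℤ)), hL, Finset.sum_pair hGH] at hdc
    have key2 : ∀ A B : V, B ∈ c.N A → (∀ w ∈ c.O, w ∉ c.N B) → A ∉ c.O →
        ∑ v ∈ c.N A, c.g v * ((c.O ∩ c.N v).card : ℤ) ≤ (c.S - c.g A) * (c.S - c.g B) := by
      intro A B hBA hB hA
      have h1 := Finset.add_sum_erase (c.N A) (fun v => c.g v * ((c.O ∩ c.N v).card : ℤ)) hBA
      have h2 := Finset.add_sum_erase (c.N A) c.g hBA
      rw [c.sum] at h2
      have h3 : c.O ∩ c.N B = ∅ := by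
        rw [Finset.eq_empty_iff_forall_notMem]
        intro w hw
        rw [mem_inter] at hw
        exact hB w hw.1 hw.2
      have h4 : ∑ v ∈ (c.N A).erase B, c.g v * ((c.O ∩ c.N v).card : ℤ) ≤
          ∑ v ∈ (c.N A).erase B, c.g v * (c.S - c.g A) := by
        refine Finset.sum_le_sum fun v hv => mul_le_mul_of_nonneg_left ?_ (nn v)
        have hAv : A ∈ c.N v := c.symm A v (mem_of_mem_erase hv)
        have h5 := Finset.add_sum_erase (c.N v) c.g hAv
        rw [c.sum] at h5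
        have h6 : ∑ w ∈ c.O ∩ c.N v, (1 : ℤ) ≤ ∑ w ∈ c.O ∩ c.N v, c.g w :=
          Finset.sum_le_sum fun w hw => c.posO hU (mem_inter.1 hw).1
        have h7 : ∑ w ∈ c.O ∩ c.N v, c.g w ≤ ∑ w ∈ (c.N v).erase A, c.g w := by
          refine Finset.sum_le_sum_of_subset_of_nonneg ?_ fun w _ _ => nn w
          intro w hw
          rw [mem_inter] at hw
          refine mem_erase.2 ⟨?_, hw.2⟩
          rintro rfl
          exact hA hw.1
        rw [Finset.sum_const, nsmul_eq_mul, mul_one] at h6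
        linarith
      rw [← Finset.sum_mul] at h4
      rw [h3] at h1
      have h8 : ∑ v ∈ (c.N A).erase B, c.g v = c.S - c.g B := by linarith
      rw [h8] at h4
      simp only [Finset.card_empty, Nat.cast_zero, mul_zero, zero_add] at h1
      rw [← h1]
      linarith
    have hGO : G ∉ c.O := fun h => ((mO G).1 h).2 hadj
    have hHO : H ∉ c.O := fun h => ((mO H).1 h).1 hadj'
    have k2G := key2 G H hadj (fun w hw h => ((mO w).1 hw).2 (c.symm H w h)) hGO
    have k2H := key2 H G hadj' (fun w hw h => ((mO w).1 hw).1 (c.symm G w h)) hHO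
    have k2O : ∑ v ∈ c.O, c.g v * ((c.O ∩ c.N v).card : ℤ) ≤
        ∑ v ∈ c.O, c.g v * ((c.O.card : ℤ) - 1) := by
      refine Finset.sum_le_sum fun v hv => mul_le_mul_of_nonneg_left ?_ (nn v)
      have h1 : c.O ∩ c.N v ⊆ c.O.erase v := by
        intro w hw
        rw [mem_inter] at hw
        refine mem_erase.2 ⟨?_, hw.1⟩
        rintro rfl
        exact c.irr w hw.2
      have h2 := Finset.card_le_card h1
      rw [Finset.card_erase_of_mem hv] at h2
      have h3 : 1 ≤ c.O.card := Finset.card_pos.2 ⟨v, hv⟩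
      omega
    rw [← Finset.sum_mul] at k2O
    obtain ⟨k, hk⟩ := c.S_odd
    have hltG := c.glt hU G
    have hltH := c.glt hU H
    have hc0 : (0 : ℤ) ≤ c.O.card := Int.natCast_nonneg _
    have hcO : (c.O.card : ℤ) = 16 - (c.g G + c.g H) := by linarith
    have hsO : ∑ v ∈ c.O, c.g v = 17 - c.S := by linarith
    rw [hcO] at hc0 hO1 hMO hOup hOlo hdc k2O
    rw [hsO] at hO1 hMO hOup hOlo k2O
    refine num2 c.S (Finset.mem_Icc.2 ⟨by omega, by omega⟩) (c.g G)
      (Finset.mem_Icc.2 ⟨by omega, by omega⟩) (c.g H) (Finset.mem_Icc.2 ⟨by omega, by omega⟩)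
      (by omega) hGL hHL hltG hltH hO1 hc0 (by linarith) ?_ ?_ ?_
    · have h1 := kG.1
      have h2 := kH.1
      linarith
    · have h1 := kG.2
      have h2 := kH.2
      linarith
    · linarith
  · have hadj' : G ∉ c.N H := fun h => hadj (c.symm H G h)
    have hGO : G ∈ c.O := (mO G).2 ⟨c.irr G, hadj⟩
    have hHO : H ∈ c.O := (mO H).2 ⟨hadj', c.irr H⟩
    have h1 : ∑ v ∈ ({G, H} : Finset V), (c.g v - 1) ≤ ∑ v ∈ c.O, (c.g v - 1) := by
      refine Finset.sum_le_sum_of_subset_of_nonneg ?_ fun v hv _ => ?_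
      · intro w hw
        rw [mem_insert, mem_singleton] at hw
        rcases hw with rfl | rfl
        · exact hGO
        · exact hHO
      · have := c.posO hU hv
        omega
    rw [Finset.sum_pair hGH, Finset.sum_sub_distrib, Finset.sum_const, nsmul_eq_mul, mul_one,
      hsum, hcard] at h1
    linarith

end Cfg

end Pool.Agent.Q147.PK
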