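import Pool.Agent.Q147.PK.CaseB
import Pool.Agent.Q147.PK.One
import Pool.Agent.Q147.PK.Two
import Pool.Agent.Q147.PK.Three

/-!
# No configuration exists
-/

set_option autoImplicit false

namespace Pool.Agent.Q147.PK

open Finset

namespace Cfg

variable {V : Type} [Fintype V] [DecidableEq V] (c : Cfg V)

theorem no_U2 {u w : V} (huw : u ≠ w) (hU : c.U = {u, w}) : False := by
  have hS := c.S_ge
  have huU : c.g u = c.S := c.mem_U.1 (by rw [hU]; simp)
  have hwU : c.g w = c.S := c.mem_U.1 (by rw [hU]; simp)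
  have hleu := c.le u
  have hc := c.P_card
  have hs := c.P_sum
  rw [hU, Finset.card_pair huw, Finset.sum_pair huw] at hc hs
  push_cast at hc hs
  have hc0 : (0 : ℤ) ≤ c.P.card := Int.natCast_nonneg _
  obtain ⟨k, hk⟩ := c.S_odd
  by_cases hadj : w ∈ c.N u
  · have hadj' := c.symm u w hadj
    have h1 : ({u, w} : Finset V) ∩ c.N u = {w} := by
      ext v
      simp only [mem_inter, mem_insert, mem_singleton]
      constructor
      · rintro ⟨rfl | rfl, h⟩
        · exact absurd h (c.irr _)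
        · rfl
      · rintro rfl
        exact ⟨Or.inr rfl, hadj⟩
    have h2 : ({u, w} : Finset V) ∩ c.N w = {u} := by
      ext v
      simp only [mem_inter, mem_insert, mem_singleton]
      constructor
      · rintro ⟨rfl | rfl, h⟩
        · rfl
        · exact absurd h (c.irr _)
      · rintro rfl
        exact ⟨Or.inl rfl, hadj'⟩
    rw [h1, h2, Finset.card_singleton, Finset.card_singleton] at hc hs
    push_cast at hc hs
    obtain ⟨a, ha⟩ := c.exists_H (s := 17 - c.S) (by omega) (by linarith)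
    have hN : ∀ b ∈ c.H, c.N b ⊆ c.P.erase b := by
      intro b hb v hv
      refine mem_erase.2 ⟨?_, c.H_nbr hb hv⟩
      rintro rfl
      exact c.irr v hv
    have hNc : ∀ b ∈ c.H, c.g b + 2 ≤ (c.P.card : ℤ) - 1 := by
      intro b hb
      have h3 := Finset.card_le_card (hN b hb)
      have hbP := (c.mem_H.1 hb).1
      rw [Finset.card_erase_of_mem hbP] at h3
      have h4 := c.card b
      have h5 : 0 < c.P.card := Finset.card_pos.2 ⟨b, hbP⟩
      omega
    have ha1 := (c.mem_H.1 ha).2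
    have ha2 := hNc a ha
    have hS5 : c.S = 5 := by omega
    rw [hS5] at hc hs
    have hcP : (c.P.card : ℤ) = 6 := by linarith
    have hle2 : ∀ b ∈ c.P, c.g b ≤ 2 := by
      intro b hb
      by_contra hcon
      have hbH : b ∈ c.H := c.mem_H.2 ⟨hb, by omega⟩
      have h3 := hNc b hbH
      have h4 : c.N b = c.P.erase b := by
        refine Finset.eq_of_subset_of_card_le (hN b hbH) ?_
        rw [Finset.card_erase_of_mem hb]
        have := c.card b
        omega
      have h5 := c.sum b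
      have h6 := Finset.add_sum_erase c.P c.g hb
      rw [← h4, h5, hs, hS5] at h6
      omega
    have hall : ∀ b ∈ c.P, c.g b = 2 := by
      have h3 : ∑ b ∈ c.P, (2 - c.g b) = 0 := by
        rw [Finset.sum_sub_distrib, Finset.sum_const, nsmul_eq_mul, hcP, hs]
        norm_num
      rw [Finset.sum_eq_zero_iff_of_nonneg (fun b hb => by have := hle2 b hb; omega)] at h3
      intro b hb
      have := h3 b hb
      omega
    have h3 : ∑ v ∈ c.N a, c.g v = ∑ v ∈ c.N a, 2 :=
      Finset.sum_congr rfl fun v hv => hall v (c.H_nbr ha hv)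
    rw [c.sum, Finset.sum_const, nsmul_eq_mul, c.card, hS5] at h3
    omega
  · have hadj' : u ∉ c.N w := fun h => hadj (c.symm w u h)
    have h1 : ({u, w} : Finset V) ∩ c.N u = ∅ := by
      ext v
      simp only [mem_inter, mem_insert, mem_singleton, Finset.notMem_empty, iff_false]
      rintro ⟨rfl | rfl, h⟩
      · exact c.irr _ h
      · exact hadj h
    have h2 : ({u, w} : Finset V) ∩ c.N w = ∅ := by
      ext v
      simp only [mem_inter, mem_insert, mem_singleton, Finset.notMem_empty, iff_false]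
      rintro ⟨rfl | rfl, h⟩
      · exact hadj' h
      · exact c.irr _ h
    rw [h1, h2, Finset.card_empty] at hc hs
    push_cast at hc hs
    have hPn : 0 ≤ ∑ v ∈ c.P, c.g v := Finset.sum_nonneg fun v hv => (c.P_bds hv).1
    have hS5 : c.S = 5 := by omega
    rw [hS5] at hc
    have nbrS : ∀ a ∈ ({u, w} : Finset V), c.g a = c.S ∧ ∀ v ∈ c.N a, c.g v ≠ c.S := by
      intro a ha
      have haU : c.g a = c.S := c.mem_U.1 (by rw [hU]; exact ha)
      refine ⟨haU, fun v hv hvS => ?_⟩
      have hvU : v ∈ c.U := c.mem_U.2 hvS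
      rw [hU, mem_insert, mem_singleton] at hvU
      rw [mem_insert, mem_singleton] at ha
      rcases ha with rfl | rfl <;> rcases hvU with rfl | rfl
      · exact c.irr _ hv
      · exact hadj hv
      · exact hadj' hv
      · exact c.irr _ hv
    have nu := nbrS u (by simp)
    have nw := nbrS w (by simp)
    have hd : Disjoint (c.R u) (c.R w) := by
      rw [Finset.disjoint_left]
      intro j hj hj'
      rw [mem_R] at hj hj'
      have h3 := c.far (nu.2 j hj.1) hwU (c.symm w j hj'.1) (c.symm u j hj.1) huw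
      omega
    have hdc := c.dc c.Z (c.R u ∪ c.R w) (fun _ => 1)
    simp only [one_mul, Finset.sum_const, nsmul_eq_mul, mul_one] at hdc
    rw [Finset.sum_union hd] at hdc
    have key : ∀ a, c.g a = c.S → (∀ v ∈ c.N a, c.g v ≠ c.S) →
        7 ≤ ∑ j ∈ c.R a, ((c.Z ∩ c.N j).card : ℤ) := by
      intro a ha h0
      have h3 : ∑ j ∈ c.R a, ((c.Z ∩ c.N j).card : ℤ) = ∑ j ∈ c.R a, (c.g j + 1) :=
        Finset.sum_congr rfl fun j hj => c.R_card ha hj (h0 j (c.mem_R.1 hj).1)
      have h4 := c.R_two h0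
      rw [h3, Finset.sum_add_distrib, c.R_sum, Finset.sum_const, nsmul_eq_mul, hS5]
      have h5 : (0 : ℤ) ≤ ((c.N a).filter (fun v => c.g v = -1)).card := Int.natCast_nonneg _
      have h6 : (2 : ℤ) ≤ (c.R a).card := by exact_mod_cast h4
      linarith
    have h3 := key u nu.1 nu.2
    have h4 := key w nw.1 nw.2
    have h5 : ∑ z ∈ c.Z, (((c.R u ∪ c.R w) ∩ c.N z).card : ℤ) ≤ ∑ z ∈ c.Z, 2 := by
      refine Finset.sum_le_sum fun z hz => ?_
      have h6 := Finset.card_le_card (Finset.inter_subset_right (s₁ := c.R u ∪ c.R w)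
        (s₂ := c.N z))
      have h7 := c.card z
      rw [(c.mem_Z.1 hz).2] at h7
      omega
    have h6 := Finset.card_le_card (Finset.filter_subset (fun v => c.g v = 0) c.P)
    change c.Z.card ≤ _ at h6
    rw [Finset.sum_const, nsmul_eq_mul] at h5
    omega

theorem no_U1 {u : V} (hU : c.U = {u}) : False := by
  have hS := c.S_ge
  have huU : c.g u = c.S := c.mem_U.1 (by rw [hU]; simp)
  have hleu := c.le u
  have uni : ∀ v, c.g v = c.S → v = u := by
    intro v hv
    have : v ∈ c.U := c.mem_U.2 hv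
    rw [hU, mem_singleton] at this
    exact this
  have h0 : ∀ v ∈ c.N u, c.g v ≠ c.S := by
    intro v hv hS
    have := uni v hS
    rw [this] at hv
    exact c.irr u hv
  have hint : ({u} : Finset V) ∩ c.N u = ∅ := by
    ext v
    simp only [mem_inter, mem_singleton, Finset.notMem_empty, iff_false]
    rintro ⟨rfl, h⟩
    exact c.irr _ h
  have hc := c.P_card
  have hs := c.P_sum
  rw [hU, Finset.card_singleton, Finset.sum_singleton, hint, Finset.card_empty] at hc hs
  push_cast at hc hs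
  -- `P = H ∪ Z`
  have hPnotH : ∀ v ∈ c.P, v ∉ c.H → v ∈ c.Z := by
    intro v hv hvH
    rw [mem_Z]
    refine ⟨hv, ?_⟩
    have h1 := c.P_bds hv
    rw [mem_H] at hvH
    by_contra h
    exact hvH ⟨hv, by omega⟩
  have hHZ : Disjoint c.H c.Z := by
    rw [Finset.disjoint_left]
    intro v hv hv'
    rw [mem_H] at hv
    rw [mem_Z] at hv'
    omega
  have hPU : c.P = c.H ∪ c.Z := by
    ext v
    rw [mem_union]
    constructor
    · intro h
      by_cases hv : v ∈ c.H
      · exact Or.inl hv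
      · exact Or.inr (hPnotH v h hv)
    · rintro (h | h)
      · exact (c.mem_H.1 h).1
      · exact (c.mem_Z.1 h).1
  have hPc : (c.P.card : ℤ) = c.H.card + c.Z.card := by
    rw [hPU, Finset.card_union_of_disjoint hHZ]
    push_cast
    rfl
  have hPs : ∀ F : V → ℤ, (∀ v, c.g v = 0 → F v = 0) → ∑ v ∈ c.P, F v = ∑ v ∈ c.H, F v := by
    intro F hF
    rw [hPU, Finset.sum_union hHZ, Finset.sum_eq_zero (s := c.Z)
      (fun v hv => hF v (c.mem_Z.1 hv).2), add_zero]
  have hHs : ∑ v ∈ c.H, c.g v = 17 - c.S := by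
    rw [← hPs c.g (fun v h => h)]
    linarith
  -- the edges between `R` and `Z`
  have hER : ∑ z ∈ c.Z, ((c.R u ∩ c.N z).card : ℤ) =
      c.S + ((c.N u).filter (fun v => c.g v = -1)).card + (c.R u).card := by
    have h1 := c.dc c.Z (c.R u) (fun _ => 1)
    simp only [one_mul, Finset.sum_const, nsmul_eq_mul, mul_one] at h1
    rw [← h1]
    have h2 : ∑ j ∈ c.R u, ((c.Z ∩ c.N j).card : ℤ) = ∑ j ∈ c.R u, (c.g j + 1) :=
      Finset.sum_congr rfl fun j hj => c.R_card huU hj (h0 j (c.mem_R.1 hj).1)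
    rw [h2, Finset.sum_add_distrib, c.R_sum, Finset.sum_const, nsmul_eq_mul, mul_one]
  -- the edges between `H` and `Z`
  have hEH : ∑ z ∈ c.Z, ((c.H ∩ c.N z).card : ℤ) = ∑ a ∈ c.H, ((c.Z ∩ c.N a).card : ℤ) := by
    have h1 := c.dc c.Z c.H (fun _ => 1)
    simp only [one_mul, Finset.sum_const, nsmul_eq_mul, mul_one] at h1
    rw [← h1]
  have hZ2 : ∀ z ∈ c.Z, ((c.R u ∩ c.N z).card : ℤ) + ((c.H ∩ c.N z).card : ℤ) = 2 := by
    intro z hz
    have hzP := c.mem_P.1 (c.mem_Z.1 hz).1
    have hz0 := (c.mem_Z.1 hz).2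
    obtain ⟨a, b, hab, hN, hsum, ha1, hb1, haS, hbS⟩ := c.Z_nbr hz
    have hpos : ∀ v ∈ c.N z, 1 ≤ c.g v := by
      intro v hv
      rw [hN, mem_insert, mem_singleton] at hv
      rcases hv with rfl | rfl
      · exact ha1
      · exact hb1
    have h1 : c.N z = (c.R u ∩ c.N z) ∪ (c.H ∩ c.N z) := by
      ext v
      rw [mem_union, mem_inter, mem_inter]
      constructor
      · intro hv
        by_cases hvH : v ∈ c.H
        · exact Or.inr ⟨hvH, hv⟩
        · left
          refine ⟨?_, hv⟩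
          have h2 := hpos v hv
          have h3 : v ∉ c.P := fun h => hvH (c.mem_H.2 ⟨h, h2⟩)
          rw [mem_P] at h3
          push Not at h3
          obtain ⟨w, hw, hwS⟩ := h3 (hzP.2 v hv)
          rw [uni w hwS] at hw
          exact c.mem_R.2 ⟨c.symm v u hw, h2⟩
      · rintro (h | h)
        · exact h.2
        · exact h.2
    have h2 : Disjoint (c.R u ∩ c.N z) (c.H ∩ c.N z) := by
      rw [Finset.disjoint_left]
      intro v hv hv'
      rw [mem_inter] at hv hv'
      have h3 := c.mem_P.1 (c.mem_H.1 hv'.1).1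
      exact h3.2 u (c.symm u v (c.mem_R.1 hv.1).1) huU
    have h3 := congrArg Finset.card h1
    rw [Finset.card_union_of_disjoint h2] at h3
    have h4 := c.card z
    rw [hz0] at h4
    omega
  have hZsum : 2 * (c.Z.card : ℤ) = c.S + ((c.N u).filter (fun v => c.g v = -1)).card +
      (c.R u).card + ∑ a ∈ c.H, ((c.Z ∩ c.N a).card : ℤ) := by
    rw [← hER, ← hEH, ← Finset.sum_add_distrib, Finset.sum_congr rfl hZ2, Finset.sum_const,
      nsmul_eq_mul]
    ring
  -- the vertices of `H`
  have hHN : ∀ a ∈ c.H, (c.g a + 2 : ℤ) = (c.H ∩ c.N a).card + (c.Z ∩ c.N a).card := by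
    intro a ha
    have h1 : c.N a = (c.H ∩ c.N a) ∪ (c.Z ∩ c.N a) := by
      ext v
      rw [mem_union, mem_inter, mem_inter]
      constructor
      · intro hv
        by_cases hvH : v ∈ c.H
        · exact Or.inl ⟨hvH, hv⟩
        · exact Or.inr ⟨hPnotH v (c.H_nbr ha hv) hvH, hv⟩
      · rintro (h | h)
        · exact h.2
        · exact h.2
    have h2 : Disjoint (c.H ∩ c.N a) (c.Z ∩ c.N a) :=
      Finset.disjoint_of_subset_left Finset.inter_subset_left
        (Finset.disjoint_of_subset_right Finset.inter_subset_left hHZ)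
    have h3 := congrArg Finset.card h1
    rw [Finset.card_union_of_disjoint h2] at h3
    have h4 := c.card a
    omega
  have hHN1 : ∀ a ∈ c.H, ((c.H ∩ c.N a).card : ℤ) ≤ c.H.card - 1 := by
    intro a ha
    have h1 : c.H ∩ c.N a ⊆ c.H.erase a := by
      intro v hv
      rw [mem_inter] at hv
      refine mem_erase.2 ⟨?_, hv.1⟩
      rintro rfl
      exact c.irr v hv.2
    have h2 := Finset.card_le_card h1
    rw [Finset.card_erase_of_mem ha] at h2
    have h3 : 0 < c.H.card := Finset.card_pos.2 ⟨a, ha⟩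
    omega
  have hI : ∑ a ∈ c.H, ((c.H ∩ c.N a).card : ℤ) =
      17 - c.S + 2 * c.H.card - ∑ a ∈ c.H, ((c.Z ∩ c.N a).card : ℤ) := by
    have h1 : ∑ a ∈ c.H, (c.g a + 2) = ∑ a ∈ c.H, ((c.H ∩ c.N a).card : ℤ) +
        ∑ a ∈ c.H, ((c.Z ∩ c.N a).card : ℤ) := by
      rw [← Finset.sum_add_distrib]
      exact Finset.sum_congr rfl hHN
    rw [Finset.sum_add_distrib, hHs, Finset.sum_const, nsmul_eq_mul] at h1
    linarith
  have hI2 : ∑ a ∈ c.H, ((c.H ∩ c.N a).card : ℤ) ≤ c.H.card * (c.H.card - 1) := by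
    have h1 := Finset.sum_le_sum hHN1
    rw [Finset.sum_const, nsmul_eq_mul] at h1
    exact h1
  have hD : ∑ a ∈ c.H, c.g a * ((c.H ∩ c.N a).card : ℤ) = c.H.card * c.S := by
    rw [c.dc c.H c.H c.g]
    have h1 : ∀ w ∈ c.H, ∑ v ∈ c.H ∩ c.N w, c.g v = c.S := by
      intro w hw
      rw [← c.sum w]
      refine Finset.sum_subset Finset.inter_subset_right fun v hv hv' => ?_
      rw [mem_inter, not_and] at hv'
      exact (c.mem_Z.1 (hPnotH v (c.H_nbr hw hv) (fun h => hv' h hv))).2
    rw [Finset.sum_congr rfl h1, Finset.sum_const, nsmul_eq_mul]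
  -- squares
  have hsq : 18 * c.S - 34 = c.S ^ 2 + (∑ v ∈ c.R u, c.g v ^ 2 +
      ((c.N u).filter (fun v => c.g v = -1)).card + ∑ v ∈ c.H, c.g v ^ 2) := by
    have h1 := c.splitU (fun v => c.g v ^ 2)
    rw [c.sumsq, hU, Finset.sum_singleton, Finset.sum_singleton, huU,
      hPs (fun v => c.g v ^ 2) (fun v h => by rw [h]; norm_num)] at h1
    rw [h1, ← c.R_sq]
    congr 2
    refine Finset.sum_congr ?_ fun _ _ => rfl
    ext v
    simp only [mem_inter, mem_sdiff, mem_univ, mem_singleton, true_and]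
    constructor
    · exact fun h => h.2
    · intro h
      refine ⟨?_, h⟩
      rintro rfl
      exact c.irr _ h
  have hRs := c.R_sum (u := u)
  have hR2 := c.R_two h0
  have hRpos : ∀ j ∈ c.R u, 1 ≤ c.g j := fun j hj => (c.mem_R.1 hj).2
  have hRsq : ∑ v ∈ c.R u, c.g v ≤ ∑ v ∈ c.R u, c.g v ^ 2 := by
    refine Finset.sum_le_sum fun v hv => ?_
    have := hRpos v hv
    nlinarith
  obtain ⟨a, ha⟩ := c.exists_H (s := 17 - c.S) (by omega) (by linarith)
  have hge : ∀ b ∈ c.H, c.S ≤ 17 - c.S - c.g b := by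
    intro b hb
    have hbP := (c.mem_H.1 hb).1
    have h1 : ∑ v ∈ c.N b, c.g v ≤ ∑ v ∈ c.P.erase b, c.g v := by
      refine Finset.sum_le_sum_of_subset_of_nonneg ?_ fun v hv _ =>
        (c.P_bds (mem_of_mem_erase hv)).1
      intro v hv
      refine mem_erase.2 ⟨?_, c.H_nbr hb hv⟩
      rintro rfl
      exact c.irr v hv
    have h2 := Finset.add_sum_erase c.P c.g hbP
    rw [c.sum] at h1
    linarith
  have ha1 := (c.mem_H.1 ha).2
  have ha2 := hge a ha
  obtain ⟨k, hk⟩ := c.S_odd
  have hh1 : (1 : ℤ) ≤ c.H.card := by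
    have : 0 < c.H.card := Finset.card_pos.2 ⟨a, ha⟩
    exact_mod_cast this
  have hEH0 : 0 ≤ ∑ a ∈ c.H, ((c.Z ∩ c.N a).card : ℤ) :=
    Finset.sum_nonneg fun _ _ => Int.natCast_nonneg _
  have hx0 : (0 : ℤ) ≤ ((c.N u).filter (fun v => c.g v = -1)).card := Int.natCast_nonneg _
  have hr2 : (2 : ℤ) ≤ (c.R u).card := by exact_mod_cast hR2
  have hcases : c.S = 5 ∨ c.S = 7 := by omega
  -- bounds for squares over `H`
  have hX1 : ∑ v ∈ c.H, (5 * c.g v - 6) ≤ ∑ v ∈ c.H, c.g v ^ 2 := by
    refine Finset.sum_le_sum fun v hv => ?_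
    rcases le_or_gt (c.g v) 2 with h | h
    · nlinarith
    · nlinarith
  have hX2 : ∑ v ∈ c.H, (3 * c.g v - 2) ≤ ∑ v ∈ c.H, c.g v ^ 2 := by
    refine Finset.sum_le_sum fun v hv => ?_
    rcases le_or_gt (c.g v) 1 with h | h
    · nlinarith
    · nlinarith
  rw [Finset.sum_sub_distrib, ← Finset.mul_sum, Finset.sum_const, nsmul_eq_mul, hHs] at hX1 hX2
  rcases hcases with hS5 | hS7
  · rw [hS5] at hc hs hHs hZsum hI hD hsq hRs hge hX1 hX2
    set x : ℤ := (((c.N u).filter (fun v => c.g v = -1)).card : ℤ)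
    set r : ℤ := ((c.R u).card : ℤ)
    set h : ℤ := (c.H.card : ℤ) with hh
    set ζ : ℤ := (c.Z.card : ℤ)
    set E : ℤ := ∑ a ∈ c.H, ((c.Z ∩ c.N a).card : ℤ) with hE
    have e1 : h + ζ = 12 := by linarith
    have e2 : 6 ≤ h := by omega
    have e3 : h ≤ 8 := by omega
    by_cases h8 : h = 8
    · -- `h = 8`
      have h9 : ∑ b ∈ c.H, c.g b * ((c.Z ∩ c.N b).card : ℤ) = ∑ b ∈ c.H, c.g b ^ 2 - 16 := by
        have h10 : ∑ b ∈ c.H, c.g b * ((c.Z ∩ c.N b).card : ℤ) =
            ∑ b ∈ c.H, c.g b ^ 2 + 2 * ∑ b ∈ c.H, c.g b -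
              ∑ a ∈ c.H, c.g a * ((c.H ∩ c.N a).card : ℤ) := by
          rw [Finset.mul_sum, ← Finset.sum_add_distrib, ← Finset.sum_sub_distrib]
          refine Finset.sum_congr rfl fun b hb => ?_
          have h11 := hHN b hb
          have h12 : ((c.Z ∩ c.N b).card : ℤ) = c.g b + 2 - (c.H ∩ c.N b).card := by linarith
          rw [h12]
          ring
        rw [h10, hHs, hD, h8]
        ring
      have h10 : 1 ≤ E := by
        by_contra hcon
        have h11 : E = 0 := by omega
        rw [hE, Finset.sum_eq_zero_iff_of_nonneg (fun _ _ => Int.natCast_nonneg _)] at h11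
        rw [Finset.sum_eq_zero (fun b hb => by rw [h11 b hb, mul_zero])] at h9
        rw [h8] at hX2
        linarith
      have h11 : r = 2 := by omega
      have h12 : x = 0 := by omega
      have h13 : (c.R u).card = 2 := by
        have h14 : ((c.R u).card : ℤ) = 2 := h11
        exact_mod_cast h14
      obtain ⟨p, q, hpq, hR⟩ := Finset.card_eq_two.1 h13
      rw [hR, Finset.sum_pair hpq] at hRs
      rw [hR, Finset.sum_pair hpq, h12] at hsq
      rw [h12] at hRs
      rw [h8] at hX2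
      nlinarith [sq_nonneg (c.g p - c.g q)]
    · -- `h ≤ 7`
      have h9 : ∀ j ∈ c.R u, c.g j ≤ 2 := by
        intro j hj
        by_contra hcon
        have h10 := Finset.add_sum_erase (c.R u) (fun v => c.g v ^ 2) hj
        have h11 : ∑ v ∈ (c.R u).erase j, (1 : ℤ) ≤ ∑ v ∈ (c.R u).erase j, c.g v ^ 2 := by
          refine Finset.sum_le_sum fun v hv => ?_
          have := hRpos v (mem_of_mem_erase hv)
          nlinarith
        rw [Finset.sum_const, nsmul_eq_mul, mul_one, Finset.card_erase_of_mem hj] at h11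
        have h12 : 9 ≤ c.g j ^ 2 := by nlinarith
        have h13 : (1 : ℤ) ≤ ((c.R u).card - 1 : ℕ) := by
          have : 1 ≤ (c.R u).card - 1 := by omega
          exact_mod_cast this
        linarith [h10, h11, h12, h13, hsq, hX2, e1, e2, e3,
          (show h ≤ 7 by omega)]
      have h10 : ∑ z ∈ c.Z, ((c.R u ∩ c.N z).card : ℤ) ≤ ∑ z ∈ c.Z, 1 := by
        refine Finset.sum_le_sum fun z hz => ?_
        obtain ⟨p, q, hpq, hN, hsum, hp1, hq1, hpS, hqS⟩ := c.Z_nbr hz
        by_contra hcon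
        have h11 : 1 < (c.R u ∩ c.N z).card := by
          push Not at hcon
          exact_mod_cast hcon
        have h12 : c.R u ∩ c.N z = c.N z := by
          refine Finset.eq_of_subset_of_card_le Finset.inter_subset_right ?_
          rw [hN, Finset.card_pair hpq] at *
          omega
        have hp : p ∈ c.R u ∩ c.N z := by rw [h12, hN]; simp
        have hq : q ∈ c.R u ∩ c.N z := by rw [h12, hN]; simp
        have h13 := h9 p (mem_inter.1 hp).1
        have h14 := h9 q (mem_inter.1 hq).1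
        omega
      rw [hER, Finset.sum_const, nsmul_eq_mul, mul_one, hS5] at h10
      change 5 + x + r ≤ ζ at h10
      omega
  · rw [hS7] at hc hs hHs hZsum hI hD hsq hRs hge
    set x : ℤ := (((c.N u).filter (fun v => c.g v = -1)).card : ℤ)
    set r : ℤ := ((c.R u).card : ℤ)
    set h : ℤ := (c.H.card : ℤ) with hh
    set ζ : ℤ := (c.Z.card : ℤ)
    set E : ℤ := ∑ a ∈ c.H, ((c.Z ∩ c.N a).card : ℤ) with hE
    have e1 : h + ζ = 10 := by linarith
    have e2 : h ≤ 5 := by omega
    have e3 : 5 ≤ h := by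
      by_contra hcon
      have e4 : 4 * h - 3 + 2 ≤ h * (h - 1) := by linarith
      have e5 : h ≤ 4 := by omega
      interval_cases h <;> omega
    have e4 : h = 5 := by omega
    -- the non-adjacent pairs of `H`
    have h9 : ∑ b ∈ c.H, c.g b * (4 - ((c.H ∩ c.N b).card : ℤ)) = 5 := by
      have h10 : ∑ b ∈ c.H, c.g b * (4 - ((c.H ∩ c.N b).card : ℤ)) =
          4 * ∑ b ∈ c.H, c.g b - ∑ a ∈ c.H, c.g a * ((c.H ∩ c.N a).card : ℤ) := by
        rw [Finset.mul_sum, ← Finset.sum_sub_distrib]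
        refine Finset.sum_congr rfl fun b _ => ?_
        ring
      rw [h10, hHs, hD, e4]
      norm_num
    have h10 : ∑ b ∈ c.H, c.g b * (4 - ((c.H ∩ c.N b).card : ℤ)) ≤
        ∑ b ∈ c.H, 3 * (4 - ((c.H ∩ c.N b).card : ℤ)) := by
      refine Finset.sum_le_sum fun b hb => mul_le_mul_of_nonneg_right ?_ ?_
      · have := hge b hb
        omega
      · have := hHN1 b hb
        omega
    rw [← Finset.mul_sum, Finset.sum_sub_distrib, Finset.sum_const, nsmul_eq_mul, h9, hI] at h10
    change 5 ≤ 3 * (h * 4 - (17 - 7 + 2 * h - E)) at h10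
    omega

/-- **There is no configuration.** -/
theorem no_cfg (c : Cfg V) : False := by
  by_cases hU : ∀ v, c.g v ≠ c.S
  · have h1 := c.L_pos hU
    have h2 := c.L_le hU
    have h3 : c.L.card = 1 ∨ c.L.card = 2 ∨ c.L.card = 3 := by omega
    rcases h3 with h | h | h
    · obtain ⟨G, hG⟩ := Finset.card_eq_one.1 h
      exact c.one hU hG
    · obtain ⟨G, H, hGH, hL⟩ := Finset.card_eq_two.1 h
      exact c.two hU hGH hL
    · obtain ⟨G, H, K, hGH, hGK, hHK, hL⟩ := Finset.card_eq_three.1 h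
      exact c.three' hU hGH hGK hHK hL
  · push Not at hU
    obtain ⟨u, hu⟩ := hU
    have h1 : 0 < c.U.card := Finset.card_pos.2 ⟨u, c.mem_U.2 hu⟩
    have h2 := c.U_le
    have h3 : c.U.card = 1 ∨ c.U.card = 2 := by omega
    rcases h3 with h | h
    · obtain ⟨v, hv⟩ := Finset.card_eq_one.1 h
      exact c.no_U1 hv
    · obtain ⟨v, w, hvw, hU2⟩ := Finset.card_eq_two.1 h
      exact c.no_U2 hvw hU2

end Cfg

end Pool.Agent.Q147.PK
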